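import Pool.Agent.W263.MN.EQDefs

/-! Definitions: Riesz means of the Dirichlet series of `log L(C, 1)`. -/

set_option autoImplicit false

namespace Pool.Agent.W263.LG

open Pool.Agent.W263.BSD Pool.Agent.W263.MN

/-- `R_k(x) = ∑_{p ≤ x, p ∤ 2Δ} (1 - log p / log x)^k log ((N_p + 1) / p)`, the Riesz mean of order `k` of the
logarithms of the Birch and Swinnerton-Dyer products `P(t) = ∏_{p ≤ t, p ∤ 2Δ} (N_p + 1) / p`;
`R_0(x) = log P(x)` and `R_1(x) = (log x)⁻¹ ∫_1^x log P(t) dt/t`. -/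
noncomputable def productMean (a b : ℤ) (k : ℕ) (x : ℝ) : ℝ :=
  ∑ᶠ p ∈ {p : ℕ | GoodPrime a b p ∧ (p : ℝ) ≤ x},
    (1 - Real.log p / Real.log x) ^ k * Real.log (((pointCount a b p : ℝ) + 1) / p)

/-- `M_k(x) = ∑_{p^j ≤ x, p ∤ 2Δ, j ≥ 1} (1 - log p^j / log x)^k (α_p^j + β_p^j) / (j p^j)`, the Riesz mean of
order `k` of the Dirichlet series of `log L(C, s)` at `s = 1`. -/
noncomputable def logMean (a b : ℤ) (k : ℕ) (x : ℝ) : ℝ :=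
  ∑ᶠ q ∈ {q : ℕ × ℕ | GoodPrime a b q.1 ∧ 1 ≤ q.2 ∧ (q.1 : ℝ) ^ q.2 ≤ x},
    (1 - Real.log ((q.1 : ℝ) ^ q.2) / Real.log x) ^ k *
      (powerSum a b q.1 q.2 / ((q.2 : ℝ) * (q.1 : ℝ) ^ q.2))

end Pool.Agent.W263.LG
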