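import Pool.Agent.W263.LG.Freq
import Pool.Agent.W263.LG.EQDefs
import Pool.Agent.W263.MN.EQ

/-! Elliptic curves over `ℚ`: the means of `log L`. -/

set_option autoImplicit false

namespace Pool.Agent.W263.LG

open MeasureTheory Filter Topology Set Classical
open Pool.Agent.W263.BSD (pointCount GoodPrime IsLSeries)
open Pool.Agent.W263.EP Pool.Agent.W263.MN
open Pool.Agent.H341R2 (NormSys)

variable {a b : ℤ}

section Conv

variable {Bs : Finset Nat.Primes} (hBs : ∀ p : Nat.Primes, p ∈ Bs ↔ ¬ GoodPrime a b (p : ℕ))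

theorem MK_Q (Bs : Set Nat.Primes) (tr : Nat.Primes → ℕ → ℝ) (k : ℕ) (x : ℝ) :
    MK sysQ Bs tr 1 k x =
      ∑ᶠ p ∈ {p : Nat.Primes × ℕ | p.1 ∉ Bs ∧ (((p.1 : ℕ)) : ℝ) ^ (p.2 + 1) ≤ x},
        (1 - ((p.2 : ℝ) + 1) * Real.log ((p.1 : ℕ) : ℝ) / Real.log x) ^ k *
          (tr p.1 (p.2 + 1) * ((p.1 : ℕ) : ℝ) ^ (-(((p.2 : ℝ) + 1) * ((1 + 1) / 2))) /
            ((p.2 : ℝ) + 1)) := rfl

theorem RK_Q (Bs : Set Nat.Primes) (tr : Nat.Primes → ℕ → ℝ) (k : ℕ) (x : ℝ) :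
    RK sysQ Bs tr 1 k x =
      ∑ᶠ p ∈ {p : Nat.Primes | p ∉ Bs ∧ ((p : ℕ) : ℝ) ≤ x},
        (1 - Real.log ((p : ℕ) : ℝ) / Real.log x) ^ k * Real.log (ff0 sysQ tr 1 p) := rfl

include hBs

theorem MK_EQ (k : ℕ) (x : ℝ) :
    MK sysQ (Bs : Set Nat.Primes) (abTr (AA a b)) 1 k x = logMean a b k x := by
  rw [MK_Q]
  unfold logMean
  refine finsum_mem_eq_of_bijOn (fun p : Nat.Primes × ℕ => ((p.1 : ℕ), p.2 + 1)) ⟨?_, ?_, ?_⟩ ?_
  · rintro ⟨p, m⟩ ⟨h1, h2⟩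
    refine ⟨?_, Nat.succ_le_succ (Nat.zero_le m), h2⟩
    by_contra h
    exact h1 ((hBs p).mpr h)
  · rintro ⟨p, m⟩ _ ⟨p', m'⟩ _ h
    have h1 : (p : ℕ) = (p' : ℕ) := congrArg Prod.fst h
    have h2 : m + 1 = m' + 1 := congrArg Prod.snd h
    have h3 : p = p' := Nat.Primes.coe_nat_injective h1
    have h4 : m = m' := by omega
    rw [h3, h4]
  · rintro ⟨n, j⟩ ⟨h1, h2, h3⟩
    refine ⟨(⟨n, h1.1⟩, j - 1), ⟨?_, ?_⟩, ?_⟩
    · intro h
      exact (hBs _).mp h h1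
    · have e : j - 1 + 1 = j := by omega
      show ((n : ℕ) : ℝ) ^ (j - 1 + 1) ≤ x
      rw [e]
      exact h3
    · have e : j - 1 + 1 = j := by omega
      simp only [e]
  · rintro ⟨p, m⟩ ⟨h1, h2⟩
    have hg : GoodPrime a b (p : ℕ) := by
      by_contra h
      exact h1 ((hBs p).mpr h)
    simp only []
    rw [abTr_eq hg, Real.log_pow]
    have hp0 : (0 : ℝ) < ((p : ℕ) : ℝ) := by exact_mod_cast p.2.pos
    have e1 : (((p : ℕ) : ℝ)) ^ (-(((m : ℝ) + 1) * ((1 + 1) / 2))) = (((p : ℕ) : ℝ) ^ (m + 1))⁻¹ := by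
      rw [← Real.rpow_natCast, ← Real.rpow_neg (Nat.cast_nonneg _)]
      congr 1
      push_cast
      ring
    rw [e1]
    push_cast
    congr 1
    have h3 : ((p : ℕ) : ℝ) ^ (m + 1) ≠ 0 := (pow_pos hp0 _).ne'
    have h4 : ((m : ℝ) + 1) ≠ 0 := by positivity
    field_simp

theorem RK_EQ (k : ℕ) (x : ℝ) :
    RK sysQ (Bs : Set Nat.Primes) (abTr (AA a b)) 1 k x = productMean a b k x := by
  rw [RK_Q]
  unfold productMean
  refine finsum_mem_eq_of_bijOn (fun p : Nat.Primes => (p : ℕ)) ⟨?_, ?_, ?_⟩ ?_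
  · rintro p ⟨h1, h2⟩
    refine ⟨?_, h2⟩
    by_contra h
    exact h1 ((hBs p).mpr h)
  · exact Nat.Primes.coe_nat_injective.injOn
  · rintro n ⟨h1, h2⟩
    exact ⟨⟨n, h1.1⟩, ⟨fun h => (hBs _).mp h h1, h2⟩, rfl⟩
  · rintro p ⟨h1, h2⟩
    have hg : GoodPrime a b (p : ℕ) := by
      by_contra h
      exact h1 ((hBs p).mpr h)
    rw [ab_central (AA a b) (p := p) (fun _ => hasseP hg), Fin.prod_univ_one]
    congr 3
    unfold AA aP
    ring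

end Conv

end Pool.Agent.W263.LG
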