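import Pool.Agent.W263.LG.Kern

/-! Abstract Tauberian theorems with the constant term for the means of the logarithm. -/

set_option autoImplicit false

namespace Pool.Agent.W263.LG

open MeasureTheory Filter Topology Set
open Pool.Agent.W263.BSD Pool.Agent.W263.EP Pool.Agent.W263.MN

variable {a f : ℝ → ℝ} {ρ L : ℝ} {Φ : ℂ → ℂ} {c0 : ℝ}

/-- the remainder `-A_k + ρ ml_k - L pk_k` -/
noncomputable def rem (a : ℝ → ℝ) (ρ L : ℝ) (k : ℕ) (u : ℝ) : ℝ :=
  -(EP.ria a k u) + ρ * ml k u - L * pk k u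

theorem rem_meas (ha : Measurable a) (k : ℕ) : Measurable (rem a ρ L k) :=
  ((ria_meas ha k).neg.add ((ml_meas k).const_mul ρ)).sub ((pk_meas k).const_mul L)

theorem rem_int (ha : Measurable a) (hl : Loc a) (k : ℕ) (U : ℝ) :
    IntegrableOn (rem a ρ L k) (Ioc 0 U) :=
  ((((hl.ria k).integrableOn (ria_meas ha k) U).neg).add ((ml_integrableOn k U).const_mul ρ)).sub
    ((pk_int k U).const_mul L)

theorem rem_intU (ha : Measurable a) (hl : Loc a) (k : ℕ) {u : ℝ} (hu : 0 < u) :
    EP.intU (rem a ρ L k) u = rem a ρ L (k + 1) u := by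
  have h1 := ((hl.ria k).integrableOn (ria_meas ha k) u)
  have h2 := ml_integrableOn k u
  have h3 := pk_int k u
  have e : EP.intU (rem a ρ L k) u = -(EP.intU (EP.ria a k) u) + ρ * EP.intU (ml k) u -
      L * EP.intU (pk k) u := by
    have h1' : IntegrableOn (fun v => -EP.ria a k v) (Ioc 0 u) := h1.neg
    have h4 : IntegrableOn (fun v => -EP.ria a k v + ρ * ml k v) (Ioc 0 u) :=
      h1'.add (h2.const_mul ρ)
    unfold EP.intU rem
    rw [integral_sub h4 (h3.const_mul L),
      integral_add h1' (h2.const_mul ρ), integral_neg, integral_const_mul, integral_const_mul]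
  rw [e, ml_intU k hu, pk_intU k hu.le]
  rfl

theorem ml_loc (k : ℕ) : Loc (ml (k + 1)) := by
  intro U
  obtain ⟨B, hB⟩ := (isCompact_Icc (a := (0 : ℝ)) (b := U)).exists_bound_of_continuousOn
    (ml_contOn k).continuousOn
  exact ⟨B, fun u h1 h2 => by
    have := hB u ⟨h1.le, h2⟩
    rwa [Real.norm_eq_abs] at this⟩

theorem pk_loc (k : ℕ) : Loc (pk k) := by
  intro U
  obtain ⟨B, hB⟩ := (isCompact_Icc (a := (0 : ℝ)) (b := U)).exists_bound_of_continuousOn
    (pk_cont k).continuousOn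
  exact ⟨B, fun u h1 h2 => by
    have := hB u ⟨h1.le, h2⟩
    rwa [Real.norm_eq_abs] at this⟩

theorem rem_loc (hl : Loc a) (k : ℕ) : Loc (rem a ρ L (k + 1)) := by
  intro U
  obtain ⟨B1, h1⟩ := hl.ria (k + 1) U
  obtain ⟨B2, h2⟩ := ml_loc k U
  obtain ⟨B3, h3⟩ := pk_loc (k + 1) U
  refine ⟨B1 + |ρ| * B2 + |L| * B3, fun u hu huU => ?_⟩
  have e1 := h1 u hu huU
  have e2 := h2 u hu huU
  have e3 := h3 u hu huU
  have e4 : |ρ * ml (k + 1) u| ≤ |ρ| * B2 := by
    rw [abs_mul]; exact mul_le_mul_of_nonneg_left e2 (abs_nonneg _)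
  have e5 : |L * pk (k + 1) u| ≤ |L| * B3 := by
    rw [abs_mul]; exact mul_le_mul_of_nonneg_left e3 (abs_nonneg _)
  unfold rem
  calc |-(EP.ria a (k + 1) u) + ρ * ml (k + 1) u - L * pk (k + 1) u| ≤
      |-(EP.ria a (k + 1) u) + ρ * ml (k + 1) u| + |L * pk (k + 1) u| := abs_sub _ _
    _ ≤ (|-(EP.ria a (k + 1) u)| + |ρ * ml (k + 1) u|) + |L * pk (k + 1) u| := by
        gcongr; exact abs_add_le _ _
    _ ≤ _ := by rw [abs_neg]; linarith

/-- integration of a lower bound, without local boundedness -/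
theorem int_gen (hi : ∀ U, IntegrableOn f (Ioc 0 U)) {n : ℕ} {K K' : ℝ} (hK : K < K')
    (h : ∀ᶠ u in atTop, -(K * pk n u) ≤ f u) :
    ∀ᶠ u in atTop, -(K' * pk (n + 1) u) ≤ EP.intU f u := by
  obtain ⟨U, hU⟩ := eventually_atTop.mp h
  set V : ℝ := max U 0 with hV
  have hV0 : 0 ≤ V := le_max_right _ _
  set B : ℝ := |EP.intU f V| + |K| * pk (n + 1) V with hB
  have hlim := (pk_atTop n).eventually (eventually_ge_atTop (B / (K' - K)))
  filter_upwards [hlim, eventually_gt_atTop V] with u h1 h2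
  have hu : 0 < u := by linarith
  have hKK : 0 < K' - K := by linarith
  rw [div_le_iff₀ hKK] at h1
  have hd : Disjoint (Ioc 0 V) (Ioc V u) := by
    rw [Set.disjoint_left]
    intro x hx hx'
    exact absurd hx.2 (not_le.mpr hx'.1)
  have hun : Ioc 0 V ∪ Ioc V u = Ioc 0 u := Ioc_union_Ioc_eq_Ioc hV0 h2.le
  have hi2 : IntegrableOn f (Ioc V u) := (hi u).mono_set (Ioc_subset_Ioc_left hV0)
  have e1 : EP.intU f u = EP.intU f V + ∫ v in Ioc V u, f v := by
    unfold EP.intU
    rw [← hun, setIntegral_union hd measurableSet_Ioc (hi V) hi2]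
  have e2 : EP.intU (pk n) u = EP.intU (pk n) V + ∫ v in Ioc V u, pk n v := by
    unfold EP.intU
    rw [← hun, setIntegral_union hd measurableSet_Ioc (pk_int n V)
      ((pk_int n u).mono_set (Ioc_subset_Ioc_left hV0))]
  rw [pk_intU n hu.le, pk_intU n hV0] at e2
  have e3 : -(K * ∫ v in Ioc V u, pk n v) ≤ ∫ v in Ioc V u, f v := by
    rw [← integral_const_mul, ← integral_neg]
    refine setIntegral_mono_on ?_ hi2 measurableSet_Ioc fun v hv => ?_
    · exact (((pk_int n u).mono_set (Ioc_subset_Ioc_left hV0)).const_mul K).neg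
    · exact hU v ((le_max_left _ _).trans hv.1.le)
  have e4 : (∫ v in Ioc V u, pk n v) = pk (n + 1) u - pk (n + 1) V := by linarith
  rw [e4] at e3
  have e5 := neg_abs_le (EP.intU f V)
  have e6 : -(|K| * pk (n + 1) V) ≤ K * pk (n + 1) V := by
    have h7 := pk_nonneg (n + 1) hV0
    have h8 := neg_abs_le K
    nlinarith
  rw [e1]
  nlinarith

theorem int_small (hi : ∀ U, IntegrableOn f (Ioc 0 U)) {n : ℕ}
    (h : Tendsto (fun u => f u / pk n u) atTop (𝓝 0)) :
    Tendsto (fun u => EP.intU f u / pk (n + 1) u) atTop (𝓝 0) := by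
  have key : ∀ ε : ℝ, 0 < ε → (∀ᶠ u in atTop, -(ε * pk n u) ≤ f u) ∧
      ∀ᶠ u in atTop, f u ≤ ε * pk n u := by
    intro ε hε
    have h1 := tendsto_order.mp h
    constructor
    · filter_upwards [h1.1 (-ε) (by linarith), eventually_gt_atTop 0] with u h2 hu
      have hp : 0 < pk n u := by unfold pk; positivity
      rw [lt_div_iff₀ hp] at h2
      linarith
    · filter_upwards [h1.2 ε hε, eventually_gt_atTop 0] with u h2 hu
      have hp : 0 < pk n u := by unfold pk; positivity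
      rw [div_lt_iff₀ hp] at h2
      linarith
  rw [tendsto_order]
  constructor
  · intro b hb
    have hb' : 0 < -b / 2 := by linarith
    have h1 := int_gen hi (K := -b / 4) (K' := -b / 2) (by linarith) (key (-b / 4) (by linarith)).1
    filter_upwards [h1, eventually_gt_atTop 0] with u h2 hu
    have hp : 0 < pk (n + 1) u := by unfold pk; positivity
    rw [lt_div_iff₀ hp]
    nlinarith
  · intro b hb
    have h0 : ∀ U, IntegrableOn (fun u => -f u) (Ioc 0 U) := fun U => (hi U).neg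
    have h1 := int_gen h0 (K := b / 4) (K' := b / 2) (n := n) (by linarith) (by
      filter_upwards [(key (b / 4) (by linarith)).2] with u hu
      linarith)
    filter_upwards [h1, eventually_gt_atTop 0] with u h2 hu
    have hp : 0 < pk (n + 1) u := by unfold pk; positivity
    rw [intU_neg] at h2
    rw [div_lt_iff₀ hp]
    nlinarith

theorem rem_LInt {k : ℕ} {w : ℝ} (hw : 0 < w) :
    LInt (rem a ρ L k) w ↔ LInt (EP.ria a k) w := by
  have h2 := (ml_lap k hw).1.const_mul ρ
  have h3 := (pk_LInt k hw).const_mul L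
  constructor
  · intro h
    have h4 := ((h.sub h2).add h3).neg
    refine (LInt_congr fun u _ => ?_).mp h4
    unfold rem
    ring
  · intro h
    have h4 := (h.neg.add h2).sub h3
    exact h4

theorem rem_lap {k : ℕ} {w : ℝ} (hw : 0 < w) (h : LInt (EP.ria a k) w) :
    w ^ (k + 1) * lap (rem a ρ L k) w =
      -(w ^ (k + 1) * lap (EP.ria a k) w) - ρ * Real.log w - L := by
  have h2 := (ml_lap k hw).1.const_mul ρ
  have h3 := (pk_LInt k hw).const_mul L
  have e : lap (rem a ρ L k) w = -lap (EP.ria a k) w + ρ * lap (ml k) w - L * lap (pk k) w := by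
    unfold rem
    rw [lap_sub (h.neg.add h2) h3, lap_add h.neg h2, lap_neg, lap_const_mul, lap_const_mul]
  rw [e, pk_lap k hw]
  have h4 := (ml_lap k hw).2
  have hw' : w ^ (k + 1) ≠ 0 := (pow_pos hw _).ne'
  have e2 : w ^ (k + 1) * (-lap (EP.ria a k) w + ρ * lap (ml k) w - L * (1 / w ^ (k + 1))) =
      -(w ^ (k + 1) * lap (EP.ria a k) w) + ρ * (w ^ (k + 1) * lap (ml k) w) - L := by
    field_simp
  rw [e2, h4]
  ring

/-- the transform of the remainder -/
theorem rem_phi {k : ℕ} (D : DataU 1 a Φ (fun _ => 0) c0)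
    (hconv : ∀ w > 0, LInt (EP.ria a k) w) {w : ℝ} (hw : 0 < w) :
    w ^ (k + 1) * lap (rem a ρ L k) w = Real.log ‖Φ w‖ - ρ * Real.log w - L := by
  rw [rem_lap hw (hconv w hw)]
  have h1 := (D.ria k).real_eq le_rfl hconv hw
  rw [h1, Complex.norm_real, Real.norm_of_nonneg (Real.exp_pos _).le, Real.log_exp]
  simp

/-- `log |Φ(w)| - ρ log w → L` as `w → 0⁺` -/
def LimL (Φ : ℂ → ℂ) (ρ L : ℝ) : Prop :=
  Tendsto (fun w : ℝ => Real.log ‖Φ w‖ - ρ * Real.log w) (𝓝[>] 0) (𝓝 L)

theorem limL_iff {k : ℕ} (D : DataU 1 a Φ (fun _ => 0) c0)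
    (hconv : ∀ w > 0, LInt (EP.ria a k) w) :
    LimL Φ ρ L ↔ Tendsto (fun w : ℝ => w ^ (k + 1) * lap (rem a ρ L k) w) (𝓝[>] 0) (𝓝 0) := by
  have key : ∀ᶠ w : ℝ in 𝓝[>] 0, w ^ (k + 1) * lap (rem a ρ L k) w =
      (Real.log ‖Φ w‖ - ρ * Real.log w) - L := by
    filter_upwards [self_mem_nhdsWithin] with w hw
    exact rem_phi D hconv hw
  rw [tendsto_congr' key]
  unfold LimL
  constructor
  · intro h
    have := h.sub_const L
    rwa [sub_self] at this
  · intro h
    have := h.add_const L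
    rw [zero_add] at this
    exact this.congr fun w => by ring

/-- a lower bound for the remainder gives convergence of the Laplace integral -/
theorem conv_of_rem (D : DataU 1 a Φ (fun _ => 0) c0) {k : ℕ} {K : ℝ}
    (h : ∀ᶠ u in atTop, -(K * pk k u) ≤ rem a ρ L k u) : ∀ w > 0, LInt (EP.ria a k) w := by
  set K' : ℝ := |K| + |L| + |ρ| * (1 + |Real.eulerMascheroniConstant - (harmonic k : ℝ)|) with hK'
  refine (D.ria k).conv_of_upper fun ε hε => ?_
  filter_upwards [h, pk_log_le k K' hε, eventually_ge_atTop (Real.exp 1)] with u h1 h2 h3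
  refine le_trans ?_ h2
  have hu : 0 < u := lt_of_lt_of_le (Real.exp_pos 1) h3
  have hl : 1 ≤ Real.log u := by
    rw [Real.le_log_iff_exp_le hu]; exact h3
  have hp := pk_nonneg k hu.le
  unfold rem ml at h1
  set γ' : ℝ := Real.eulerMascheroniConstant - (harmonic k : ℝ) with hγ'
  have e1 : EP.ria a k u ≤ K * pk k u + ρ * (pk k u * (Real.log u + γ')) - L * pk k u := by
    rw [hγ']
    linarith
  refine e1.trans ?_
  have e2 : K ≤ |K| * Real.log u := (le_abs_self K).trans
    (le_mul_of_one_le_right (abs_nonneg _) hl)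
  have e3 : -L ≤ |L| * Real.log u := (neg_le_abs L).trans
    (le_mul_of_one_le_right (abs_nonneg _) hl)
  have e4 : ρ * (Real.log u + γ') ≤ |ρ| * (1 + |γ'|) * Real.log u := by
    have h4 : Real.log u + γ' ≤ (1 + |γ'|) * Real.log u := by
      have := le_abs_self γ'
      have := le_mul_of_one_le_right (abs_nonneg γ') hl
      linarith
    have h5 : -(Real.log u + γ') ≤ (1 + |γ'|) * Real.log u := by
      have := neg_abs_le γ'
      have := le_mul_of_one_le_right (abs_nonneg γ') hl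
      linarith
    have h6 : |Real.log u + γ'| ≤ (1 + |γ'|) * Real.log u := abs_le.mpr ⟨by linarith, h4⟩
    calc ρ * (Real.log u + γ') ≤ |ρ * (Real.log u + γ')| := le_abs_self _
      _ = |ρ| * |Real.log u + γ'| := abs_mul _ _
      _ ≤ |ρ| * ((1 + |γ'|) * Real.log u) := mul_le_mul_of_nonneg_left h6 (abs_nonneg _)
      _ = _ := by ring
  have e5 : K + ρ * (Real.log u + γ') - L ≤ K' * Real.log u := by
    rw [hK']
    nlinarith
  calc K * pk k u + ρ * (pk k u * (Real.log u + γ')) - L * pk k u =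
      pk k u * (K + ρ * (Real.log u + γ') - L) := by ring
    _ ≤ pk k u * (K' * Real.log u) := mul_le_mul_of_nonneg_left e5 hp
    _ = _ := by ring

/-- **Tauberian theorem with the constant term.** -/
theorem taub_lead (D : DataU 1 a Φ (fun _ => 0) c0) (hl : Loc a) (hL : LimL Φ ρ L) {k : ℕ} {K : ℝ}
    (h : ∀ᶠ u in atTop, -(K * pk k u) ≤ rem a ρ L k u) :
    (∀ w > 0, LInt (EP.ria a (k + 1)) w) ∧
      Tendsto (fun u => rem a ρ L (k + 2) u / pk (k + 2) u) atTop (𝓝 0) := by
  have h1 : ∀ᶠ u in atTop, -((K + 1) * pk (k + 1) u) ≤ rem a ρ L (k + 1) u := by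
    filter_upwards [int_gen (rem_int D.meas hl k) (show K < K + 1 by linarith) h,
      eventually_gt_atTop 0] with u hu hu0
    rwa [rem_intU D.meas hl k hu0] at hu
  have hconv := conv_of_rem D h1
  refine ⟨hconv, ?_⟩
  have h2 := (limL_iff D hconv).mp hL
  have h3 := kar_lower (rem_meas D.meas (k + 1)) (rem_loc hl k)
    (fun w hw => (rem_LInt hw).mpr (hconv w hw)) h1 h2
  refine h3.congr' ?_
  filter_upwards [eventually_gt_atTop 0] with u hu
  rw [rem_intU D.meas hl (k + 1) hu]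

/-- **Abelian theorem with the constant term.** -/
theorem abel_lead (hm : Measurable a) (hl : Loc a) {k : ℕ}
    (h : Tendsto (fun u => rem a ρ L k u / pk k u) atTop (𝓝 0)) :
    (∀ w > 0, LInt (EP.ria a (k + 1)) w) ∧
      Tendsto (fun w : ℝ => w ^ (k + 2) * lap (rem a ρ L (k + 1)) w) (𝓝[>] 0) (𝓝 0) := by
  have h1 := int_small (rem_int hm hl k) h
  have h2 : Tendsto (fun u => rem a ρ L (k + 1) u / pk (k + 1) u) atTop (𝓝 0) := by
    refine h1.congr' ?_
    filter_upwards [eventually_gt_atTop 0] with u hu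
    rw [rem_intU hm hl k hu]
  obtain ⟨h3, h4⟩ := abel_pow (rem_meas hm (k + 1)) (rem_loc hl k) h2
  exact ⟨fun w hw => (rem_LInt hw).mp (h3 w hw), h4⟩

end Pool.Agent.W263.LG
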