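import Pool.Agent.W263.LG.LeadB

/-! Conversion between the two kinds of means. -/

set_option autoImplicit false

namespace Pool.Agent.W263.LG

open MeasureTheory Filter Topology Set Classical
open Pool.Agent.W263.BSD Pool.Agent.W263.EP Pool.Agent.W263.MN
open Pool.Agent.H341R2 (NormSys)

variable {S : NormSys} {bad : Set S.X} {tr : S.X → ℕ → ℝ} {ω : ℝ} {D : ℝ} {ρ L : ℝ}

theorem RK_mt_upper (E : TData S (tn S bad tr ω) D) {k : ℕ} :
    (∃ K : ℝ, ∀ᶠ x : ℝ in atTop, -K ≤ MK S bad tr ω k x - mt ρ L k x) ↔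
      ∃ C : ℝ, ∀ᶠ x : ℝ in atTop, RK S bad tr ω k x ≤ ρ * Real.log (Real.log x) + C := by
  obtain ⟨C0, h0⟩ := RK_MK E k
  have e : ∀ x : ℝ, mt ρ L k x = L - ρ * Real.log (Real.log x) -
      ρ * (Real.eulerMascheroniConstant - (harmonic k : ℝ)) := by
    intro x; unfold mt; ring
  simp only [e]
  constructor
  · rintro ⟨K, h⟩
    refine ⟨C0 + K - L + ρ * (Real.eulerMascheroniConstant - (harmonic k : ℝ)), ?_⟩
    filter_upwards [h0, h] with x h1 h2
    have := (abs_le.mp h1).2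
    linarith
  · rintro ⟨C, h⟩
    refine ⟨C0 + C + L - ρ * (Real.eulerMascheroniConstant - (harmonic k : ℝ)), ?_⟩
    filter_upwards [h0, h] with x h1 h2
    have := (abs_le.mp h1).1
    linarith

theorem RK_mt_lower (E : TData S (tn S bad tr ω) D) {k : ℕ} :
    (∃ K : ℝ, ∀ᶠ x : ℝ in atTop, MK S bad tr ω k x - mt ρ L k x ≤ K) ↔
      ∃ C : ℝ, ∀ᶠ x : ℝ in atTop, ρ * Real.log (Real.log x) - C ≤ RK S bad tr ω k x := by
  obtain ⟨C0, h0⟩ := RK_MK E k
  have e : ∀ x : ℝ, mt ρ L k x = L - ρ * Real.log (Real.log x) -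
      ρ * (Real.eulerMascheroniConstant - (harmonic k : ℝ)) := by
    intro x; unfold mt; ring
  simp only [e]
  constructor
  · rintro ⟨K, h⟩
    refine ⟨C0 + K + L - ρ * (Real.eulerMascheroniConstant - (harmonic k : ℝ)), ?_⟩
    filter_upwards [h0, h] with x h1 h2
    have := (abs_le.mp h1).1
    linarith
  · rintro ⟨C, h⟩
    refine ⟨C0 + C - L + ρ * (Real.eulerMascheroniConstant - (harmonic k : ℝ)), ?_⟩
    filter_upwards [h0, h] with x h1 h2
    have := (abs_le.mp h1).2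
    linarith

theorem RK_mt_abs (E : TData S (tn S bad tr ω) D) {k : ℕ} :
    (∃ K : ℝ, ∀ᶠ x : ℝ in atTop, |MK S bad tr ω k x - mt ρ L k x| ≤ K) ↔
      ∃ C : ℝ, ∀ᶠ x : ℝ in atTop, |RK S bad tr ω k x - ρ * Real.log (Real.log x)| ≤ C := by
  have h1 := RK_mt_upper E (k := k) (ρ := ρ) (L := L)
  have h2 := RK_mt_lower E (k := k) (ρ := ρ) (L := L)
  constructor
  · rintro ⟨K, h⟩
    obtain ⟨C, hC⟩ := h1.mp ⟨K, h.mono fun x hx => (abs_le.mp hx).1⟩
    obtain ⟨C', hC'⟩ := h2.mp ⟨K, h.mono fun x hx => (abs_le.mp hx).2⟩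
    refine ⟨max C C', ?_⟩
    filter_upwards [hC, hC'] with x h3 h4
    have h5 := le_max_left C C'
    have h6 := le_max_right C C'
    rw [abs_le]
    constructor <;> linarith
  · rintro ⟨K, h⟩
    obtain ⟨C, hC⟩ := h1.mpr ⟨K, h.mono fun x hx => by linarith [(abs_le.mp hx).2]⟩
    obtain ⟨C', hC'⟩ := h2.mpr ⟨K, h.mono fun x hx => by linarith [(abs_le.mp hx).1]⟩
    refine ⟨max C C', ?_⟩
    filter_upwards [hC, hC'] with x h3 h4
    have h5 := le_max_left C C'
    have h6 := le_max_right C C'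
    rw [abs_le]
    constructor <;> linarith

end Pool.Agent.W263.LG
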