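import Pool.Agent.W263.LG.Value

/-! The value at the centre as a limit of exponentials of means. -/

set_option autoImplicit false

namespace Pool.Agent.W263.LG

open MeasureTheory Filter Topology Set Classical
open Pool.Agent.W263.BSD Pool.Agent.W263.EP Pool.Agent.W263.MN
open Pool.Agent.H341R2 (NormSys)

variable {S : NormSys} {bad : Set S.X} {Bs : Finset S.X} {tr : S.X → ℕ → ℝ} {ω : ℝ} {D : ℝ}
  {F G : ℂ → ℂ} {ρ L : ℝ} {n : ℤ}

theorem mt_atBot {r : ℝ} (hr : 0 < r) (L : ℝ) (k : ℕ) :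
    Tendsto (fun x : ℝ => mt r L k x) atTop atBot := by
  have h1 : Tendsto (fun x : ℝ => r * (Real.log (Real.log x) +
      (Real.eulerMascheroniConstant - (harmonic k : ℝ)))) atTop atTop :=
    (tendsto_atTop_add_const_right _ _ loglog_atTop).const_mul_atTop hr
  have h2 := tendsto_atBot_add_const_left atTop L (tendsto_neg_atTop_atBot.comp h1)
  refine h2.congr fun x => ?_
  simp only [Function.comp, mt]
  ring

/-- `exp` of a small perturbation -/
theorem exp_close {m l e : ℝ} (he : |m - l| ≤ e) (he1 : e ≤ 1) :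
    |Real.exp m - Real.exp l| ≤ 2 * Real.exp l * e := by
  have h1 : Real.exp m = Real.exp l * Real.exp (m - l) := by
    rw [← Real.exp_add]; congr 1; ring
  have h2 : |m - l| ≤ 1 := he.trans he1
  have h3 := Real.abs_exp_sub_one_le h2
  have h4 : Real.exp m - Real.exp l = Real.exp l * (Real.exp (m - l) - 1) := by rw [h1]; ring
  rw [h4, abs_mul, abs_of_pos (Real.exp_pos l)]
  calc Real.exp l * |Real.exp (m - l) - 1| ≤ Real.exp l * (2 * |m - l|) :=
        mul_le_mul_of_nonneg_left h3 (Real.exp_pos l).le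
    _ ≤ Real.exp l * (2 * e) :=
        mul_le_mul_of_nonneg_left (by linarith) (Real.exp_pos l).le
    _ = _ := by ring

theorem log_ge (B : ℝ) : ∀ᶠ x : ℝ in atTop, B ≤ Real.log x :=
  Real.tendsto_log_atTop.eventually (eventually_ge_atTop B)

/-- from the expansion to the exponential, order `0` -/
theorem exp_rate_zero {m : ℝ → ℝ} {l C : ℝ} (h : ∀ᶠ x : ℝ in atTop, |m x - l| ≤ C / Real.log x) :
    ∀ᶠ x : ℝ in atTop, |Real.exp (m x) - Real.exp l| ≤ (2 * Real.exp l * C) / Real.log x := by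
  filter_upwards [h, log_ge (|C| + 1)] with x h1 h2
  have h3 : 0 < Real.log x := by have := abs_nonneg C; linarith
  have h4 : C / Real.log x ≤ 1 := by
    rw [div_le_one h3]
    have := le_abs_self C
    linarith
  have h5 := exp_close h1 h4
  rw [mul_div_assoc]
  exact h5

/-- from the expansion to the exponential, positive order -/
theorem exp_rate_pos {m : ℝ → ℝ} {r : ℕ} (hr : 1 ≤ r) {L C : ℝ} {k : ℕ}
    (h : ∀ᶠ x : ℝ in atTop, |m x - mt r L k x| ≤ C / Real.log x) :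
    ∃ C' : ℝ, ∀ᶠ x : ℝ in atTop, |Real.exp (m x) - 0| ≤ C' / Real.log x := by
  set B : ℝ := L - r * (Real.eulerMascheroniConstant - (harmonic k : ℝ)) + |C| with hB
  refine ⟨Real.exp B, ?_⟩
  filter_upwards [h, log_ge 1] with x h1 h2
  have h3 : 0 < Real.log x := by linarith
  have h4 : C / Real.log x ≤ |C| := by
    rw [div_le_iff₀ h3]
    have := le_abs_self C
    have := le_mul_of_one_le_right (abs_nonneg C) h2
    linarith
  have h5 : m x ≤ B - Real.log (Real.log x) := by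
    have h6 := (abs_le.mp h1).2
    have h7 : 0 ≤ Real.log (Real.log x) := Real.log_nonneg h2
    have h8 : Real.log (Real.log x) ≤ (r : ℝ) * Real.log (Real.log x) :=
      le_mul_of_one_le_left h7 (by exact_mod_cast hr)
    unfold mt at h6
    rw [hB]
    have e : (r : ℝ) * (Real.log (Real.log x) + Real.eulerMascheroniConstant - (harmonic k : ℝ)) =
        r * Real.log (Real.log x) + r * (Real.eulerMascheroniConstant - (harmonic k : ℝ)) := by ring
    rw [e] at h6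
    linarith
  rw [sub_zero, abs_of_pos (Real.exp_pos _)]
  calc Real.exp (m x) ≤ Real.exp (B - Real.log (Real.log x)) := Real.exp_le_exp.mpr h5
    _ = Real.exp B / Real.log x := by rw [Real.exp_sub, Real.exp_log h3]

theorem exp_rate {m : ℝ → ℝ} {r : ℕ} {v L C : ℝ} {k : ℕ}
    (hv0 : r = 0 → 0 < v ∧ L = Real.log v) (hv1 : r ≠ 0 → v = 0)
    (h : ∀ᶠ x : ℝ in atTop, |m x - mt r L k x| ≤ C / Real.log x) :
    ∃ C' : ℝ, ∀ᶠ x : ℝ in atTop, |Real.exp (m x) - v| ≤ C' / Real.log x := by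
  by_cases h0 : r = 0
  · obtain ⟨hv, hL⟩ := hv0 h0
    subst h0
    refine ⟨2 * Real.exp (Real.log v) * C, ?_⟩
    have h1 : ∀ᶠ x : ℝ in atTop, |m x - Real.log v| ≤ C / Real.log x := by
      refine h.mono fun x hx => ?_
      have e : mt ((0 : ℕ) : ℝ) L k x = Real.log v := by
        unfold mt
        rw [hL]
        push_cast
        ring
      rwa [e] at hx
    have h2 := exp_rate_zero h1
    rw [Real.exp_log hv] at h2 ⊢
    exact h2
  · rw [hv1 h0]
    exact exp_rate_pos (Nat.one_le_iff_ne_zero.mpr h0) h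

section Main

variable (E : TData S (tn S (Bs : Set S.X) tr ω) D) (hF : IsCont S (Bs : Set S.X) tr ω F) {r : ℕ}
    (hA : AnalyticAt ℂ F (((ω + 1) / 2 : ℝ) : ℂ))
    (hr : analyticOrderAt F (((ω + 1) / 2 : ℝ) : ℂ) = r)

include hA hr in
theorem order_data : MeromorphicAt F (((ω + 1) / 2 : ℝ) : ℂ) ∧
    meromorphicOrderAt F (((ω + 1) / 2 : ℝ) : ℂ) = ((r : ℤ) : WithTop ℤ) ∧
    ∃ L : ℝ, CLim ((ω + 1) / 2) F ((r : ℤ) : ℝ) L ∧
      (r = 0 → 0 < ‖F (((ω + 1) / 2 : ℝ) : ℂ)‖ ∧ L = Real.log ‖F (((ω + 1) / 2 : ℝ) : ℂ)‖) ∧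
      (r ≠ 0 → ‖F (((ω + 1) / 2 : ℝ) : ℂ)‖ = 0) := by
  have hm : MeromorphicAt F (((ω + 1) / 2 : ℝ) : ℂ) := hA.meromorphicAt
  have hn : meromorphicOrderAt F (((ω + 1) / 2 : ℝ) : ℂ) = ((r : ℤ) : WithTop ℤ) := by
    rw [hA.meromorphicOrderAt_eq, hr]
    rfl
  refine ⟨hm, hn, ?_⟩
  by_cases h0 : r = 0
  · subst h0
    have h1 : F (((ω + 1) / 2 : ℝ) : ℂ) ≠ 0 := (hA.analyticOrderAt_eq_zero).mp (by rw [hr]; rfl)
    exact ⟨_, clim_of_ne hA.continuousAt h1, fun _ => ⟨norm_pos_iff.mpr h1, rfl⟩,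
      fun h => absurd rfl h⟩
  · obtain ⟨Λ, hΛ, h1⟩ := mero_lead hm hn
    refine ⟨Real.log Λ, clim_of_lead hΛ h1, fun h => absurd h h0, fun _ => ?_⟩
    rw [norm_eq_zero]
    by_contra h2
    have h3 := (hA.analyticOrderAt_eq_zero).mpr h2
    rw [hr] at h3
    exact h0 (by exact_mod_cast h3)

include E hF hA hr in
/-- unconditional: the lower limit of the exponentials of the means -/
theorem exp_freq_lower (k : ℕ) {ε : ℝ} (hε : 0 < ε) :
    ∃ᶠ x : ℝ in atTop, Real.exp (MK S (Bs : Set S.X) tr ω k x) <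
      ‖F (((ω + 1) / 2 : ℝ) : ℂ)‖ + ε := by
  obtain ⟨_, _, L, hL, hv0, hv1⟩ := order_data hA hr
  by_cases h0 : r = 0
  · obtain ⟨hv, hL'⟩ := hv0 h0
    subst h0
    set v := ‖F (((ω + 1) / 2 : ℝ) : ℂ)‖ with hvd
    have hd : 0 < Real.log (v + ε) - Real.log v := by
      rw [sub_pos]
      exact Real.log_lt_log hv (by linarith)
    refine (mk_freq_lower E hF hL k hd).mono fun x hx => ?_
    have e : mt (((0 : ℕ) : ℤ) : ℝ) L k x = Real.log v := by
      unfold mt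
      rw [hL']
      push_cast
      ring
    rw [e] at hx
    have h1 : MK S (Bs : Set S.X) tr ω k x < Real.log (v + ε) := by linarith
    calc Real.exp (MK S (Bs : Set S.X) tr ω k x) < Real.exp (Real.log (v + ε)) :=
          Real.exp_lt_exp.mpr h1
      _ = v + ε := Real.exp_log (by linarith)
  · rw [hv1 h0, zero_add]
    have hrp : (0 : ℝ) < ((r : ℤ) : ℝ) := by
      have : 0 < r := Nat.pos_of_ne_zero h0
      exact_mod_cast this
    have h1 := (mt_atBot hrp L k).eventually (eventually_le_atBot (Real.log ε - 1))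
    refine ((mk_freq_lower E hF hL k one_pos).and_eventually h1).mono fun x hx => ?_
    have h2 : MK S (Bs : Set S.X) tr ω k x < Real.log ε := by linarith [hx.1, hx.2]
    calc Real.exp (MK S (Bs : Set S.X) tr ω k x) < Real.exp (Real.log ε) :=
          Real.exp_lt_exp.mpr h2
      _ = ε := Real.exp_log hε

include E hF hA hr in
/-- without real zeros: the upper limit of the exponentials of the means -/
theorem exp_freq_upper (hne : ∀ s : ℝ, (ω + 1) / 2 < s → F s ≠ 0) (k : ℕ) {ε : ℝ} (hε : 0 < ε) :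
    ∃ᶠ x : ℝ in atTop, ‖F (((ω + 1) / 2 : ℝ) : ℂ)‖ - ε <
      Real.exp (MK S (Bs : Set S.X) tr ω k x) := by
  obtain ⟨_, _, L, hL, hv0, hv1⟩ := order_data hA hr
  by_cases h0 : r = 0
  · obtain ⟨hv, hL'⟩ := hv0 h0
    subst h0
    set v := ‖F (((ω + 1) / 2 : ℝ) : ℂ)‖ with hvd
    set w := max (v - ε) (v / 2) with hw
    have hw0 : 0 < w := lt_max_of_lt_right (by linarith)
    have hwv : w < v := max_lt (by linarith) (by linarith)
    have hd : 0 < Real.log v - Real.log w := by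
      rw [sub_pos]
      exact Real.log_lt_log hw0 hwv
    refine (mk_freq_upper E hF hL hne k hd).mono fun x hx => ?_
    have e : mt (((0 : ℕ) : ℤ) : ℝ) L k x = Real.log v := by
      unfold mt
      rw [hL']
      push_cast
      ring
    rw [e] at hx
    have h1 : Real.log w < MK S (Bs : Set S.X) tr ω k x := by linarith
    calc v - ε ≤ w := le_max_left _ _
      _ = Real.exp (Real.log w) := (Real.exp_log hw0).symm
      _ < Real.exp (MK S (Bs : Set S.X) tr ω k x) := Real.exp_lt_exp.mpr h1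
  · rw [hv1 h0, zero_sub]
    refine (Frequently.of_forall fun x => ?_)
    have := Real.exp_pos (MK S (Bs : Set S.X) tr ω k x)
    linarith

include E hF hA hr in
/-- the limit of the exponentials of the means is the value -/
theorem exp_limit {k : ℕ} {Λ : ℝ} (hne : ∀ s : ℝ, (ω + 1) / 2 < s → F s ≠ 0)
    (h : Tendsto (fun x : ℝ => Real.exp (MK S (Bs : Set S.X) tr ω k x)) atTop (𝓝 Λ)) :
    ‖F (((ω + 1) / 2 : ℝ) : ℂ)‖ = Λ := by
  refine le_antisymm ?_ ?_
  · refine le_of_forall_pos_le_add fun ε hε => ?_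
    have h1 := exp_freq_upper E hF hA hr hne k (show 0 < ε / 2 by linarith)
    have h2 := h.eventually (gt_mem_nhds (show Λ < Λ + ε / 2 by linarith))
    obtain ⟨x, h3, h4⟩ := (h1.and_eventually h2).exists
    linarith
  · refine le_of_forall_pos_le_add fun ε hε => ?_
    have h1 := exp_freq_lower E hF hA hr k (show 0 < ε / 2 by linarith)
    have h2 := h.eventually (lt_mem_nhds (show Λ - ε / 2 < Λ by linarith))
    obtain ⟨x, h3, h4⟩ := (h1.and_eventually h2).exists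
    linarith

/-- from a rate to a limit -/
theorem tendsto_of_rate' {m : ℝ → ℝ} {L C : ℝ}
    (h : ∀ᶠ x : ℝ in atTop, |m x - L| ≤ C / Real.log x) : Tendsto m atTop (𝓝 L) :=
  tendsto_of_rate h

include E hF hA hr in
/-- **Theorem (the value as a limit).** -/
theorem exp_means (Λ : ℝ) :
    List.TFAE [
      ∃ k : ℕ, (∃ K : ℝ, ∀ᶠ x : ℝ in atTop,
          -(K * Real.log (Real.log x)) ≤ MK S (Bs : Set S.X) tr ω k x) ∧
        Tendsto (fun x : ℝ => Real.exp (MK S (Bs : Set S.X) tr ω k x)) atTop (𝓝 Λ),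
      ∃ k : ℕ, (∃ K : ℝ, ∀ᶠ x : ℝ in atTop,
          -(K * Real.log (Real.log x)) ≤ MK S (Bs : Set S.X) tr ω k x) ∧
        ∃ C : ℝ, ∀ᶠ x : ℝ in atTop, |Real.exp (MK S (Bs : Set S.X) tr ω k x) - Λ| ≤ C / Real.log x,
      ‖F (((ω + 1) / 2 : ℝ) : ℂ)‖ = Λ ∧ ∃ (k : ℕ) (K : ℝ), ∀ᶠ x : ℝ in atTop,
          -(K * Real.log (Real.log x)) ≤ MK S (Bs : Set S.X) tr ω k x,
      ‖F (((ω + 1) / 2 : ℝ) : ℂ)‖ = Λ ∧ (∀ s : ℝ, (ω + 1) / 2 < s → F s ≠ 0) ∧
        ∃ (k : ℕ) (K : ℝ), ∀ᶠ x : ℝ in atTop,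
          MK S (Bs : Set S.X) tr ω k x ≤ K * Real.log (Real.log x),
      ‖F (((ω + 1) / 2 : ℝ) : ℂ)‖ = Λ ∧
        ∃ G : ℂ → ℂ, IsFull S (Bs : Set S.X) tr ω G ∧ LDB ((ω + 1) / 2) G] := by
  obtain ⟨hm, hn, L, hL, hv0, hv1⟩ := order_data hA hr
  have key := mero_means E hF hm hn hL
  have k1 := key.out 0 4
  have k2 := key.out 1 4
  have k3 := key.out 3 4
  have hcast : ((r : ℤ) : ℝ) = (r : ℝ) := by push_cast; rfl
  tfae_have 3 ↔ 5 := and_congr_right fun _ => k1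
  tfae_have 4 ↔ 5 := and_congr_right fun _ => k2
  tfae_have 5 → 2 := by
    rintro ⟨hv, hG⟩
    obtain ⟨k, C, h⟩ := k3.mpr hG
    rw [hcast] at h
    obtain ⟨C', h1⟩ := exp_rate hv0 hv1 h
    rw [hv] at h1
    have h2 : ∀ᶠ x : ℝ in atTop, |MK S (Bs : Set S.X) tr ω k x - mt r L k x| ≤ |C| := by
      filter_upwards [h, one_le_log] with x h2 h3
      refine h2.trans ((div_le_div_of_nonneg_right (le_abs_self C) (by linarith)).trans ?_)
      exact div_le_self (abs_nonneg C) h3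
    obtain ⟨K', _, h3⟩ := weak_of_bdd h2
    exact ⟨k, ⟨K', h3.mono fun x hx => (abs_le.mp hx).1⟩, C', h1⟩
  tfae_have 2 → 1 := fun ⟨k, h1, C, h2⟩ => ⟨k, h1, tendsto_of_rate h2⟩
  tfae_have 1 → 5 := by
    rintro ⟨k, ⟨K, h1⟩, h2⟩
    have h3 := k1.mp ⟨k, K, h1⟩
    refine ⟨?_, h3⟩
    obtain ⟨G, hG, _⟩ := h3
    refine exp_limit E hF hA hr (fun s hs => ?_) h2
    rw [cont_eq_full hF hG hs]
    exact hG.2.1 s (by rw [Complex.ofReal_re]; exact hs)
  tfae_finish

end Main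

section Growth

variable (E : TData S (tn S (Bs : Set S.X) tr ω) D)
    (hd : ∀ s : ℂ, (ω + 1) / 2 < s.re → DifferentiableAt ℂ F s)
    (he : ∀ s : ℂ, (ω + 2) / 2 < s.re → F s = LF S (Bs : Set S.X) tr s) {r : ℕ}
    (hA : AnalyticAt ℂ F (((ω + 1) / 2 : ℝ) : ℂ))
    (hr : analyticOrderAt F (((ω + 1) / 2 : ℝ) : ℂ) = r)
    (hg : ∃ (C : ℝ) (A : ℕ), ∀ s : ℂ, (ω + 1) / 2 < s.re → ‖F s‖ ≤ C * (1 + ‖s‖) ^ A)

include hd he in
theorem isCont_of : IsCont S (Bs : Set S.X) tr ω F := by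
  refine ⟨fun s hs => ?_, fun s hs => he s (by simpa using hs)⟩
  refine Complex.analyticAt_iff_eventually_differentiableAt.mpr ?_
  filter_upwards [(isOpen_half ((ω + 1) / 2)).mem_nhds
    (show (ω + 1) / 2 < (s : ℂ).re by simpa using hs)] with z hz using hd z hz

include E hd he hA hr hg in
/-- **Theorem (the value as a limit, polynomial growth).** -/
theorem exp_growth (Λ : ℝ) :
    List.TFAE [
      ‖F (((ω + 1) / 2 : ℝ) : ℂ)‖ = Λ ∧ ∀ s : ℂ, (ω + 1) / 2 < s.re → F s ≠ 0,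
      ‖F (((ω + 1) / 2 : ℝ) : ℂ)‖ = Λ ∧ ∃ K : ℝ, ∀ᶠ x : ℝ in atTop,
          -(K * Real.log (Real.log x)) ≤ MK S (Bs : Set S.X) tr ω 1 x,
      (∃ K : ℝ, ∀ᶠ x : ℝ in atTop,
          -(K * Real.log (Real.log x)) ≤ MK S (Bs : Set S.X) tr ω 2 x) ∧
        Tendsto (fun x : ℝ => Real.exp (MK S (Bs : Set S.X) tr ω 2 x)) atTop (𝓝 Λ),
      (∃ K : ℝ, ∀ᶠ x : ℝ in atTop,
          -(K * Real.log (Real.log x)) ≤ MK S (Bs : Set S.X) tr ω 2 x) ∧
        ∃ C : ℝ, ∀ᶠ x : ℝ in atTop,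
          |Real.exp (MK S (Bs : Set S.X) tr ω 2 x) - Λ| ≤ C / Real.log x] := by
  have hF := isCont_of hd he
  obtain ⟨hm, hn, L, hL, hv0, hv1⟩ := order_data hA hr
  have key := growth_means E hd he hm hn hL hg
  have k1 := key.out 0 1
  have k3 := key.out 0 3
  have k4 := key.out 0 4
  have hcast : ((r : ℤ) : ℝ) = (r : ℝ) := by push_cast; rfl
  tfae_have 1 ↔ 2 := and_congr_right fun _ => k1
  tfae_have 1 → 4 := by
    rintro ⟨hv, hG⟩
    obtain ⟨C, h⟩ := k3.mp hG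
    rw [hcast] at h
    obtain ⟨C', h1⟩ := exp_rate hv0 hv1 h
    rw [hv] at h1
    have h2 : ∀ᶠ x : ℝ in atTop, |MK S (Bs : Set S.X) tr ω 2 x - mt r L 2 x| ≤ |C| := by
      filter_upwards [h, one_le_log] with x h2 h3
      refine h2.trans ((div_le_div_of_nonneg_right (le_abs_self C) (by linarith)).trans ?_)
      exact div_le_self (abs_nonneg C) h3
    obtain ⟨K', _, h3⟩ := weak_of_bdd h2
    exact ⟨⟨K', h3.mono fun x hx => (abs_le.mp hx).1⟩, C', h1⟩
  tfae_have 4 → 3 := fun ⟨h1, C, h2⟩ => ⟨h1, tendsto_of_rate h2⟩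
  tfae_have 3 → 1 := by
    rintro ⟨⟨K, h1⟩, h2⟩
    have h3 := k4.mpr ⟨2, K, h1⟩
    refine ⟨?_, h3⟩
    exact exp_limit E hF hA hr (fun s hs => h3 s (by rw [Complex.ofReal_re]; exact hs)) h2
  tfae_finish

end Growth

end Pool.Agent.W263.LG
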