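import Pool.Agent.W263.LG.Place

/-! Unconditional statements on the means, and the value at the centre. -/

set_option autoImplicit false

namespace Pool.Agent.W263.LG

open MeasureTheory Filter Topology Set Classical
open Pool.Agent.W263.BSD Pool.Agent.W263.EP Pool.Agent.W263.MN
open Pool.Agent.H341R2 (NormSys)

/-- a remainder which is at least `ε pk` cannot exist when the limit is right -/
theorem rem_not_ge {a : ℝ → ℝ} {Φ : ℂ → ℂ} {c0 ρ L : ℝ}
    (D : DataU 1 a Φ (fun _ => 0) c0) (hl : Loc a) (hL : LimL Φ ρ L) {k : ℕ} {ε : ℝ} (hε : 0 < ε)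
    (h : ∀ᶠ u in atTop, ε * pk k u ≤ rem a ρ L k u) : False := by
  have h0 : ∀ᶠ u in atTop, -((-ε) * pk k u) ≤ rem a ρ L k u := by
    filter_upwards [h] with u hu
    linarith
  have h1 := (taub_lead D hl hL h0).2
  have h2 : ∀ᶠ u in atTop, -((-(3 * ε / 4)) * pk (k + 1) u) ≤ rem a ρ L (k + 1) u := by
    filter_upwards [int_gen (rem_int D.meas hl k) (show -ε < -(3 * ε / 4) by linarith) h0,
      eventually_gt_atTop 0] with u hu hu0
    rwa [rem_intU D.meas hl k hu0] at hu
  have h3 : ∀ᶠ u in atTop, -((-(ε / 2)) * pk (k + 2) u) ≤ rem a ρ L (k + 2) u := by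
    filter_upwards [int_gen (rem_int D.meas hl (k + 1)) (show -(3 * ε / 4) < -(ε / 2) by linarith)
      h2, eventually_gt_atTop 0] with u hu hu0
    rwa [rem_intU D.meas hl (k + 1) hu0] at hu
  have h4 := (Metric.tendsto_nhds.mp h1) (ε / 2) (by linarith)
  obtain ⟨u, h5, h6, hu⟩ := (h4.and (h3.and (eventually_gt_atTop (0 : ℝ)))).exists
  have hp : 0 < pk (k + 2) u := by unfold pk; positivity
  rw [Real.dist_eq, sub_zero] at h5
  have h7 : ε / 2 ≤ rem a ρ L (k + 2) u / pk (k + 2) u := by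
    rw [le_div_iff₀ hp]
    linarith
  have h8 := le_abs_self (rem a ρ L (k + 2) u / pk (k + 2) u)
  linarith

variable {S : NormSys} {bad : Set S.X} {tr : S.X → ℕ → ℝ} {ω : ℝ} {D : ℝ} {F G : ℂ → ℂ}
  {ρ L : ℝ} {n : ℤ}

/-- the means are infinitely often not much larger than the main term -/
theorem mk_freq_lower (E : TData S (tn S bad tr ω) D) (hF : IsCont S bad tr ω F)
    (hL : CLim ((ω + 1) / 2) F ρ L) (k : ℕ) {ε : ℝ} (hε : 0 < ε) :
    ∃ᶠ x : ℝ in atTop, MK S bad tr ω k x - mt ρ L k x < ε := by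
  intro hcon
  have P := pair E
  refine rem_not_ge (dataP E hF) P.al hL.shift (k := k) hε ?_
  filter_upwards [ev_exp hcon, eventually_gt_atTop 0] with u h1 hu
  rw [rem_MK k hu, mul_comm ε]
  exact mul_le_mul_of_nonneg_left (not_lt.mp h1) (pk_nonneg k hu.le)

/-- the remainder of the negative -/
theorem rem_neg (a : ℝ → ℝ) (ρ L : ℝ) (k : ℕ) (u : ℝ) :
    rem (fun u => -a u) (-ρ) (-L) k u = -rem a ρ L k u := by
  have e1 : ∀ (k : ℕ) (u : ℝ), EP.ria (fun u => -a u) k u = -EP.ria a k u := by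
    intro k
    induction k with
    | zero => intro u; rfl
    | succ k ih =>
      intro u
      have e2 : EP.ria (fun u => -a u) k = fun u => -EP.ria a k u := funext ih
      show EP.intU (EP.ria (fun u => -a u) k) u = _
      rw [e2, intU_neg]
      rfl
  unfold rem
  rw [e1]
  ring

/-- if there are no real zeros, the means are infinitely often not much smaller than the main term -/
theorem mk_freq_upper (E : TData S (tn S bad tr ω) D) (hF : IsCont S bad tr ω F)
    (hL : CLim ((ω + 1) / 2) F ρ L) (hne : ∀ s : ℝ, (ω + 1) / 2 < s → F s ≠ 0) (k : ℕ)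
    {ε : ℝ} (hε : 0 < ε) :
    ∃ᶠ x : ℝ in atTop, -ε < MK S bad tr ω k x - mt ρ L k x := by
  intro hcon
  have P := pair E
  have hD := (dataP E hF).neg (Phi_ne hne)
  have e0 : (fun z : ℂ => -(fun _ : ℂ => (0 : ℂ)) z) = fun _ => 0 := by
    funext z; simp
  rw [e0] at hD
  have hO' : LimL (fun z => (F (((ω : ℂ) + 1) / 2 + z))⁻¹) (-ρ) (-L) := by
    refine hL.shift.neg.congr fun w => ?_
    rw [norm_inv, Real.log_inv]
    ring
  have hl' : Loc (fun u => -ap S (tn S bad tr ω) u) := fun U => by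
    obtain ⟨B, hB⟩ := P.al U
    exact ⟨B, fun u h1 h2 => by rw [abs_neg]; exact hB u h1 h2⟩
  refine rem_not_ge hD hl' hO' (k := k) hε ?_
  filter_upwards [ev_exp hcon, eventually_gt_atTop 0] with u h1 hu
  rw [rem_neg, rem_MK k hu]
  have h2 := mul_le_mul_of_nonneg_left (not_lt.mp h1) (pk_nonneg k hu.le)
  linarith

/-- the value at the centre -/
theorem clim_of_ne {c : ℝ} (hF : ContinuousAt F c) (h0 : F c ≠ 0) :
    CLim c F ((0 : ℤ) : ℝ) (Real.log ‖F c‖) := by
  have h1 : ContinuousAt (fun s : ℝ => F s) c :=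
    ContinuousAt.comp (f := fun s : ℝ => (s : ℂ)) hF Complex.continuous_ofReal.continuousAt
  have h2 : Tendsto (fun s : ℝ => Real.log ‖F s‖) (𝓝[>] c) (𝓝 (Real.log ‖F c‖)) :=
    tendsto_nhdsWithin_of_tendsto_nhds (h1.norm.tendsto.log (norm_ne_zero_iff.mpr h0))
  refine h2.congr fun s => ?_
  push_cast
  ring

theorem mt_zero (L : ℝ) (k : ℕ) (x : ℝ) : mt ((0 : ℤ) : ℝ) L k x = L := by
  unfold mt
  push_cast
  ring

/-- a lower bound for a mean of `log L` excludes a zero at the centre -/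
theorem order_le_of_lower {Bs : Finset S.X} (E : TData S (tn S (Bs : Set S.X) tr ω) D)
    (hF : IsCont S (Bs : Set S.X) tr ω F) (hO : WOrd ((ω + 1) / 2) F ρ) {k : ℕ} {C : ℝ}
    (h : ∀ᶠ x : ℝ in atTop, -C ≤ MK S (Bs : Set S.X) tr ω k x) : ρ ≤ 0 := by
  by_contra hρ
  rw [not_le] at hρ
  have h1 := means_upper E (B := fun _ => 1) (one_ne _) (isContB_one.mpr hF) hO k
    (show ρ / 2 < ρ by linarith)
  obtain ⟨K, hK⟩ := RK_MK E k
  have h2 : ∀ᶠ x : ℝ in atTop, K + C < ρ / 2 * Real.log (Real.log x) :=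
    (loglog_atTop.const_mul_atTop (by linarith)).eventually (eventually_gt_atTop _)
  obtain ⟨x, h3, h4, h5, h6⟩ := (h1.and_eventually (h.and (hK.and h2))).exists
  have h7 := (abs_le.mp h5).2
  linarith

end Pool.Agent.W263.LG
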