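import Pool.Agent.W263.LG.MeroL

/-! Polynomial growth: the Riemann hypothesis and the first mean. -/

set_option autoImplicit false

namespace Pool.Agent.W263.LG

open MeasureTheory Filter Topology Set Classical
open Pool.Agent.W263.BSD Pool.Agent.W263.EP Pool.Agent.W263.MN
open Pool.Agent.H341R2 (NormSys)

variable {S : NormSys} {Bs : Finset S.X} {tr : S.X → ℕ → ℝ} {ω : ℝ} {D : ℝ} {F G : ℂ → ℂ}
  {ρ L : ℝ} {n : ℤ}

theorem LFB_one (s : ℂ) : LFB S Bs (fun _ => 1) tr s = LF S (Bs : Set S.X) tr s := by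
  unfold LFB LF
  refine tprod_congr fun x => ?_
  by_cases h : x ∈ Bs
  · rw [if_pos h, if_pos (show x ∈ (Bs : Set S.X) from h)]
    simp
  · rw [if_neg h, if_neg (show x ∉ (Bs : Set S.X) from h)]

theorem one_ne (c : ℝ) : ∀ x ∈ Bs, ∀ s : ℂ, c ≤ s.re →
    ((fun _ => 1 : S.X → Polynomial ℂ) x).eval (((S.N x : ℕ) : ℂ) ^ (-s)) ≠ 0 := by
  intro x _ s _
  simp

theorem isFullB_one : IsFullB S Bs (fun _ => 1) tr ω F ↔ IsFull S (Bs : Set S.X) tr ω F := by
  unfold IsFullB IsFull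
  simp only [LFB_one]

theorem isContB_one : IsContB S Bs (fun _ => 1) tr ω F ↔ IsCont S (Bs : Set S.X) tr ω F := by
  unfold IsContB IsCont
  simp only [LFB_one]

/-- division by `u`-powers: the first two means from the remainders -/
theorem growth_rem (E : TData S (tn S (Bs : Set S.X) tr ω) D)
    (hF : IsFull S (Bs : Set S.X) tr ω F)
    (hm : MeromorphicAt F (((ω + 1) / 2 : ℝ) : ℂ))
    (hn : meromorphicOrderAt F (((ω + 1) / 2 : ℝ) : ℂ) = n) (hL : CLim ((ω + 1) / 2) F n L)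
    (hg : ∃ (C : ℝ) (A : ℕ), ∀ s : ℂ, (ω + 1) / 2 < s.re → ‖F s‖ ≤ C * (1 + ‖s‖) ^ A) :
    (∃ C : ℝ, ∀ᶠ x : ℝ in atTop, |MK S (Bs : Set S.X) tr ω 1 x - mt n L 1 x| ≤ C) ∧
    ∃ C : ℝ, ∀ᶠ x : ℝ in atTop, |MK S (Bs : Set S.X) tr ω 2 x - mt n L 2 x| ≤ C / Real.log x := by
  have P := pair E
  obtain ⟨⟨C1, h1⟩, C2, h2⟩ := means_of_RH E (B := fun _ => 1) (one_ne _) (isFullB_one.mpr hF)
    hm hn hg
  have h3 : ∀ᶠ u in atTop, |EP.ria (zp S (tn S (Bs : Set S.X) tr ω)) 2 u +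
      (n : ℝ) * pk 3 u| ≤ C2 * pk 2 u := by
    filter_upwards [ev_exp h2, eventually_gt_atTop 0] with u h4 hu
    rw [Real.log_exp] at h4
    have hp : 0 < pk 2 u := by unfold pk; positivity
    have e1 : (n : ℝ) * pk 3 u = pk 2 u * (n / 3 * u) := by
      unfold pk
      simp only [Nat.factorial]
      push_cast
      ring
    rw [ria_ZK 2 hu, e1, ← mul_add, abs_mul, abs_of_pos hp, mul_comm]
    exact mul_le_mul_of_nonneg_right h4 hp.le
  obtain ⟨_, C3, h5⟩ := rate (k := 1) P (dataP E hF.isCont) hL.shift h3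
  obtain ⟨C4, h6⟩ := rate_prev (k := 1) (ρ := n) (L := L) P h3 h5
  constructor
  · refine ⟨|C1| + 2 * |C4| + |(n : ℝ)|, ev_log ?_⟩
    filter_upwards [h6, ev_exp h1, eventually_ge_atTop 1] with u h7 h8 hu1
    have hu : 0 < u := by linarith
    have h9 := rem_id (ρ := n) (L := L) P 1 u
    rw [rem_MK 1 hu, ria_ZK 1 hu] at h9
    rw [Real.log_exp] at h8
    have e1 : pk 1 u = u := by unfold pk; norm_num
    have e2 : pk 2 u = u ^ 2 / 2 := by unfold pk; norm_num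
    have e3 : (1 : ℕ) + 1 = 2 := rfl
    rw [e3, e1, e2] at h9
    set X := MK S (Bs : Set S.X) tr ω 1 (Real.exp u) - mt n L 1 (Real.exp u) with hX
    set Z := ZK S (Bs : Set S.X) tr ω 1 (Real.exp u) with hZ
    set R := rem (ap S (tn S (Bs : Set S.X) tr ω)) n L 2 u with hR
    have e4 : u ^ 2 * X = 2 * R + u * Z + n * (u ^ 2 / 2) := by
      push_cast at h9
      linarith
    have h7' : |R| ≤ C4 * u ^ 1 := h7
    have a1 : |2 * R| ≤ 2 * |C4| * u ^ 2 := by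
      rw [abs_mul, abs_of_pos (by norm_num : (0 : ℝ) < 2)]
      have h8 : C4 * u ^ 1 ≤ |C4| * u ^ 2 := by
        rw [pow_one]
        have h9 := le_abs_self C4
        have h10 := abs_nonneg C4
        have h11 : C4 * u ≤ |C4| * u := mul_le_mul_of_nonneg_right h9 hu.le
        have h12 : |C4| * u ≤ |C4| * u ^ 2 := mul_le_mul_of_nonneg_left (by nlinarith) h10
        linarith
      linarith
    have a2 : |u * Z| ≤ |C1| * u ^ 2 := by
      rw [abs_mul, abs_of_pos hu]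
      have h10 : C1 * u ≤ |C1| * u := mul_le_mul_of_nonneg_right (le_abs_self C1) hu.le
      have h11 : u * |Z| ≤ u * (|C1| * u) := mul_le_mul_of_nonneg_left (h8.trans h10) hu.le
      linarith
    have a3 : |(n : ℝ) * (u ^ 2 / 2)| ≤ |(n : ℝ)| * u ^ 2 := by
      rw [abs_mul, abs_of_nonneg (by positivity : (0 : ℝ) ≤ u ^ 2 / 2)]
      refine mul_le_mul_of_nonneg_left ?_ (abs_nonneg _)
      linarith [sq_nonneg u]
    have h10 : |u ^ 2 * X| ≤ u ^ 2 * (|C1| + 2 * |C4| + |(n : ℝ)|) := by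
      rw [e4]
      calc |2 * R + u * Z + n * (u ^ 2 / 2)| ≤ |2 * R + u * Z| + |n * (u ^ 2 / 2)| :=
            abs_add_le _ _
        _ ≤ (|2 * R| + |u * Z|) + |n * (u ^ 2 / 2)| := by gcongr; exact abs_add_le _ _
        _ ≤ _ := by linarith
    rw [abs_mul, abs_of_pos (pow_pos hu 2)] at h10
    exact le_of_mul_le_mul_left h10 (pow_pos hu 2)
  · refine ⟨2 * |C4|, ev_log ?_⟩
    filter_upwards [h6, eventually_gt_atTop 0] with u h7 hu
    have h7' : |rem (ap S (tn S (Bs : Set S.X) tr ω)) n L 2 u| ≤ C4 * u ^ 1 := h7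
    rw [rem_MK 2 hu, abs_mul, abs_of_nonneg (pk_nonneg _ hu.le), pow_one] at h7'
    rw [Real.log_exp, le_div_iff₀ hu]
    have e2 : pk 2 u = u * (u / 2) := by unfold pk; norm_num; ring
    rw [e2] at h7'
    have h8 : C4 * u ≤ |C4| * u := mul_le_mul_of_nonneg_right (le_abs_self C4) hu.le
    have h9 : u * (|MK S (Bs : Set S.X) tr ω 2 (Real.exp u) - mt n L 2 (Real.exp u)| * u) ≤
        u * (2 * |C4|) := by linarith
    exact le_of_mul_le_mul_left h9 hu

/-- **Theorem (polynomial growth): the Riemann hypothesis and the first mean of `log L`.** -/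
theorem growth_means (E : TData S (tn S (Bs : Set S.X) tr ω) D)
    (hd : ∀ s : ℂ, (ω + 1) / 2 < s.re → DifferentiableAt ℂ F s)
    (he : ∀ s : ℂ, (ω + 2) / 2 < s.re → F s = LF S (Bs : Set S.X) tr s)
    (hm : MeromorphicAt F (((ω + 1) / 2 : ℝ) : ℂ))
    (hn : meromorphicOrderAt F (((ω + 1) / 2 : ℝ) : ℂ) = n) (hL : CLim ((ω + 1) / 2) F n L)
    (hg : ∃ (C : ℝ) (A : ℕ), ∀ s : ℂ, (ω + 1) / 2 < s.re → ‖F s‖ ≤ C * (1 + ‖s‖) ^ A) :
    List.TFAE [
      ∀ s : ℂ, (ω + 1) / 2 < s.re → F s ≠ 0,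
      ∃ K : ℝ, ∀ᶠ x : ℝ in atTop,
        -(K * Real.log (Real.log x)) ≤ MK S (Bs : Set S.X) tr ω 1 x,
      ∃ C : ℝ, ∀ᶠ x : ℝ in atTop, |MK S (Bs : Set S.X) tr ω 1 x - mt n L 1 x| ≤ C,
      ∃ C : ℝ, ∀ᶠ x : ℝ in atTop,
        |MK S (Bs : Set S.X) tr ω 2 x - mt n L 2 x| ≤ C / Real.log x,
      ∃ (k : ℕ) (K : ℝ), ∀ᶠ x : ℝ in atTop,
        -(K * Real.log (Real.log x)) ≤ MK S (Bs : Set S.X) tr ω k x] := by
  have hc : IsCont S (Bs : Set S.X) tr ω F := by
    refine ⟨fun s hs => ?_, fun s hs => he s (by simpa using hs)⟩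
    refine Complex.analyticAt_iff_eventually_differentiableAt.mpr ?_
    filter_upwards [(isOpen_half ((ω + 1) / 2)).mem_nhds
      (show (ω + 1) / 2 < (s : ℂ).re by simpa using hs)] with z hz using hd z hz
  have hfull : (∀ s : ℂ, (ω + 1) / 2 < s.re → F s ≠ 0) → IsFull S (Bs : Set S.X) tr ω F :=
    fun h => ⟨fun s hs => (hd s hs).differentiableWithinAt, h, he⟩
  tfae_have 1 → 3 := fun h => (growth_rem E (hfull h) hm hn hL hg).1
  tfae_have 1 → 4 := fun h => (growth_rem E (hfull h) hm hn hL hg).2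
  tfae_have 3 → 2 := by
    rintro ⟨C, h⟩
    obtain ⟨K', _, h1⟩ := weak_of_bdd h
    exact ⟨K', h1.mono fun x hx => (abs_le.mp hx).1⟩
  tfae_have 2 → 5 := fun ⟨K, h⟩ => ⟨1, K, h⟩
  tfae_have 4 → 5 := by
    rintro ⟨C, h⟩
    have h1 : ∀ᶠ x : ℝ in atTop, |MK S (Bs : Set S.X) tr ω 2 x - mt n L 2 x| ≤ |C| := by
      filter_upwards [h, one_le_log] with x h2 h3
      refine h2.trans ((div_le_div_of_nonneg_right (le_abs_self C) (by linarith)).trans ?_)
      exact div_le_self (abs_nonneg C) h3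
    obtain ⟨K', _, h2⟩ := weak_of_bdd h1
    exact ⟨2, K', h2.mono fun x hx => (abs_le.mp hx).1⟩
  tfae_have 5 → 1 := by
    intro h
    obtain ⟨G, hG, _⟩ := ((mero_means E hc hm hn hL).out 0 4).mp h
    intro s hs
    have h2 : AnalyticOnNhd ℂ F {s : ℂ | (ω + 1) / 2 < s.re} :=
      DifferentiableOn.analyticOnNhd (fun s hs => (hd s hs).differentiableWithinAt) (isOpen_half _)
    have h3 : AnalyticOnNhd ℂ G {s : ℂ | (ω + 1) / 2 < s.re} := hG.1.analyticOnNhd (isOpen_half _)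
    have h4 := h2.eqOn_of_preconnected_of_eventuallyEq h3 (preconn_half _)
      (show (((ω + 2) / 2 + 1 : ℝ) : ℂ) ∈ {s : ℂ | (ω + 1) / 2 < s.re} by
        show (ω + 1) / 2 < (((ω + 2) / 2 + 1 : ℝ) : ℂ).re
        rw [Complex.ofReal_re]; linarith) (by
        filter_upwards [(isOpen_half ((ω + 2) / 2)).mem_nhds
          (show (ω + 2) / 2 < (((ω + 2) / 2 + 1 : ℝ) : ℂ).re by
            rw [Complex.ofReal_re]; linarith)] with z hz
        rw [he z hz, hG.2.2 z hz])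
    rw [h4 hs]
    exact hG.2.1 s hs
  tfae_finish

end Pool.Agent.W263.LG
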