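import Pool.Agent.W263.MN.Main
import Pool.Agent.W263.BSD.Lead1

/-! The kernels `u^k / k! (log u + γ - H_k)`: iterated integrals and Laplace transforms. -/

set_option autoImplicit false

namespace Pool.Agent.W263.LG

open MeasureTheory Filter Topology Set
open Pool.Agent.W263.BSD Pool.Agent.W263.EP Pool.Agent.W263.MN

/-- `u^k / k! (log u + γ - H_k)` -/
noncomputable def ml (k : ℕ) (u : ℝ) : ℝ :=
  pk k u * (Real.log u + Real.eulerMascheroniConstant - (harmonic k : ℝ))

theorem ml_meas (k : ℕ) : Measurable (ml k) := by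
  unfold ml
  exact (pk_meas k).mul ((Real.measurable_log.add_const _).sub_const _)

theorem pk_cont (k : ℕ) : Continuous (pk k) := by unfold pk; fun_prop

theorem ml_integrableOn (k : ℕ) (U : ℝ) : IntegrableOn (ml k) (Ioc 0 U) := by
  rcases le_or_gt U 0 with h | h
  · rw [Ioc_eq_empty (by linarith)]
    exact integrableOn_empty
  · have h1 : IntervalIntegrable (fun u => Real.log u + Real.eulerMascheroniConstant -
        (harmonic k : ℝ)) volume 0 U :=
      (intervalIntegral.intervalIntegrable_log'.add intervalIntegrable_const).sub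
        intervalIntegrable_const
    have h2 := h1.continuousOn_mul (pk_cont k).continuousOn
    rw [intervalIntegrable_iff_integrableOn_Ioc_of_le h.le] at h2
    exact h2

theorem harmonic_succ_real (k : ℕ) : (harmonic (k + 1) : ℝ) = (harmonic k : ℝ) + 1 / ((k : ℝ) + 1) := by
  rw [harmonic_succ]
  push_cast
  rw [one_div]

theorem ml_succ_eq (k : ℕ) (u : ℝ) : ml (k + 1) u = (u ^ k / (k + 1).factorial) * (u * Real.log u) +
    pk (k + 1) u * (Real.eulerMascheroniConstant - (harmonic (k + 1) : ℝ)) := by
  unfold ml pk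
  ring

theorem ml_hasDerivAt (k : ℕ) {u : ℝ} (hu : 0 < u) : HasDerivAt (ml (k + 1)) (ml k u) u := by
  unfold ml
  have h1 : HasDerivAt (pk (k + 1)) (pk k u) u := by
    unfold pk
    have := (hasDerivAt_pow (k + 1) u).div_const ((k + 1).factorial : ℝ)
    refine this.congr_deriv ?_
    rw [Nat.factorial_succ]
    have : (k.factorial : ℝ) ≠ 0 := by positivity
    have : ((k : ℝ) + 1) ≠ 0 := by positivity
    push_cast
    field_simp
  have h2 : HasDerivAt (fun u => Real.log u + Real.eulerMascheroniConstant -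
      (harmonic (k + 1) : ℝ)) (u⁻¹) u :=
    ((Real.hasDerivAt_log hu.ne').add_const _).sub_const _
  refine (h1.mul h2).congr_deriv ?_
  rw [harmonic_succ_real]
  have h3 : pk (k + 1) u * u⁻¹ = pk k u * (1 / ((k : ℝ) + 1)) := by
    have := pk_mul k u
    have : ((k : ℝ) + 1) ≠ 0 := by positivity
    have hu' : u ≠ 0 := hu.ne'
    field_simp
    linarith
  rw [h3]
  ring

theorem ml_contOn (k : ℕ) : Continuous (ml (k + 1)) := by
  have e : ml (k + 1) = fun u => (u ^ k / (k + 1).factorial) * (u * Real.log u) +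
    pk (k + 1) u * (Real.eulerMascheroniConstant - (harmonic (k + 1) : ℝ)) := funext (ml_succ_eq k)
  rw [e]
  have h1 := Real.continuous_mul_log
  have h2 := pk_cont (k + 1)
  fun_prop

theorem ml_zero (k : ℕ) : ml (k + 1) 0 = 0 := by
  unfold ml pk
  simp

theorem ml_intU (k : ℕ) {u : ℝ} (hu : 0 < u) : EP.intU (ml k) u = ml (k + 1) u := by
  unfold EP.intU
  rw [← intervalIntegral.integral_of_le hu.le,
    intervalIntegral.integral_eq_sub_of_hasDerivAt_of_le hu.le (ml_contOn k).continuousOn
      (fun v hv => ml_hasDerivAt k hv.1)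
      ((intervalIntegrable_iff_integrableOn_Ioc_of_le hu.le).mpr (ml_integrableOn k u)),
    ml_zero, sub_zero]

theorem ml_lap_zero {w : ℝ} (hw : 0 < w) :
    LInt (ml 0) w ∧ w * lap (ml 0) w = -Real.log w := by
  have hexp : IntegrableOn (fun t : ℝ => Real.exp (-t)) (Ioi 0) := by
    have := ex_LInt (c := 0) (w := 1) one_pos
    unfold LInt at this
    refine this.congr_fun (fun t _ => ?_) measurableSet_Ioi
    simp [ex]
  have hexp1 : ∫ t in Ioi (0 : ℝ), Real.exp (-t) = 1 := integral_exp_neg_Ioi_zero
  set γ := Real.eulerMascheroniConstant with hγ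
  set g : ℝ → ℝ := fun t => (Real.log t - Real.log w + γ) * Real.exp (-t) with hg
  have hgi : IntegrableOn g (Ioi 0) := by
    have := (integrable_log_exp.sub (hexp.const_mul (Real.log w))).add (hexp.const_mul γ)
    refine this.congr_fun (fun t _ => ?_) measurableSet_Ioi
    simp only [hg, Pi.add_apply, Pi.sub_apply]
    ring
  have hgv : ∫ t in Ioi (0 : ℝ), g t = -Real.log w := by
    have e : ∀ t : ℝ, g t = Real.log t * Real.exp (-t) + (γ - Real.log w) * Real.exp (-t) :=
      fun t => by rw [hg]; ring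
    simp_rw [e]
    rw [integral_add integrable_log_exp (hexp.const_mul _), integral_const_mul,
      hexp1, integral_log_exp]
    ring
  have hcongr : ∀ t ∈ Ioi (0 : ℝ), ml 0 t * Real.exp (-(w * t)) = g (w * t) := by
    intro t ht
    have ht' : (0 : ℝ) < t := ht
    rw [hg]
    simp only []
    unfold ml pk
    rw [Real.log_mul hw.ne' ht'.ne']
    simp only [pow_zero, Nat.factorial_zero, Nat.cast_one, div_one, one_mul, harmonic_zero,
      Rat.cast_zero, sub_zero]
    ring
  constructor
  · unfold LInt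
    have h1 : IntegrableOn (fun t => g (w * t)) (Ioi 0) := by
      have := (integrableOn_Ioi_comp_mul_left_iff g 0 hw).mpr (by rw [mul_zero]; exact hgi)
      exact this
    exact h1.congr_fun (fun t ht => (hcongr t ht).symm) measurableSet_Ioi
  · unfold lap
    rw [setIntegral_congr_fun measurableSet_Ioi hcongr, integral_comp_mul_left_Ioi g 0 hw, mul_zero,
      hgv, smul_eq_mul, mul_inv_cancel_left₀ hw.ne']

theorem LInt_congr {f g : ℝ → ℝ} {w : ℝ} (h : ∀ u, 0 < u → f u = g u) : LInt f w ↔ LInt g w := by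
  unfold LInt
  constructor
  · intro h1
    exact h1.congr_fun (fun t ht => by simp only [h t ht]) measurableSet_Ioi
  · intro h1
    exact h1.congr_fun (fun t ht => by simp only [h t ht]) measurableSet_Ioi

theorem lap_congr {f g : ℝ → ℝ} {w : ℝ} (h : ∀ u, 0 < u → f u = g u) : lap f w = lap g w := by
  unfold lap
  exact setIntegral_congr_fun measurableSet_Ioi fun t ht => by rw [h t ht]

theorem ml_lap (k : ℕ) {w : ℝ} (hw : 0 < w) :
    LInt (ml k) w ∧ w ^ (k + 1) * lap (ml k) w = -Real.log w := by
  induction k with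
  | zero =>
    obtain ⟨h1, h2⟩ := ml_lap_zero hw
    exact ⟨h1, by rw [zero_add, pow_one]; exact h2⟩
  | succ k ih =>
    obtain ⟨h1, h2⟩ := ih
    obtain ⟨h3, h4⟩ := lap_intU (ml_meas k) hw h1
    have e : ∀ u, 0 < u → EP.intU (ml k) u = ml (k + 1) u := fun u hu => ml_intU k hu
    refine ⟨(LInt_congr e).mp h3, ?_⟩
    rw [← lap_congr e, h4, pow_succ]
    have : w ≠ 0 := hw.ne'
    field_simp
    linarith [h2]

end Pool.Agent.W263.LG
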