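import Pool.Agent.W263.LG.ExpV

/-! The leading value, with arbitrary bad factors. -/

set_option autoImplicit false

namespace Pool.Agent.W263.LG

open MeasureTheory Filter Topology Set Classical
open Pool.Agent.W263.BSD Pool.Agent.W263.EP Pool.Agent.W263.MN
open Pool.Agent.H341R2 (NormSys)

/-- `|F(s)| / (s - c)^ρ → Λ` as `s → c⁺` -/
def HLead (c : ℝ) (F : ℂ → ℂ) (ρ Λ : ℝ) : Prop :=
  Tendsto (fun s : ℝ => ‖F s‖ / (s - c) ^ ρ) (𝓝[>] c) (𝓝 Λ)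

theorem HLead.mul {c ρ Λ : ℝ} {F H : ℂ → ℂ} (h : HLead c F ρ Λ) (hc : ContinuousAt H c) :
    HLead c (fun s => F s * H s) ρ (Λ * ‖H c‖) := by
  have h1 : ContinuousAt (fun s : ℝ => H s) c :=
    ContinuousAt.comp (f := fun s : ℝ => (s : ℂ)) hc Complex.continuous_ofReal.continuousAt
  have h2 := Tendsto.mul h (tendsto_nhdsWithin_of_tendsto_nhds h1.norm.tendsto)
  refine h2.congr fun s => ?_
  rw [norm_mul]
  ring

variable {S : NormSys} {Bs : Finset S.X} {B : S.X → Polynomial ℂ} {tr : S.X → ℕ → ℝ} {ω : ℝ}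
  {D : ℝ} {F G : ℂ → ℂ} {ρ Λ : ℝ} {n : ℤ}

/-- the constant of the bad factors -/
theorem log_BB (hB : ∀ x ∈ Bs, ∀ s : ℂ, (ω + 1) / 2 ≤ s.re →
    (B x).eval (((S.N x : ℕ) : ℂ) ^ (-s)) ≠ 0) :
    Real.log ‖BB S Bs B (((ω + 1) / 2 : ℝ) : ℂ)‖ =
      ∑ x ∈ Bs, Real.log ‖(B x).eval (((S.N x : ℕ) : ℂ) ^ (-(((ω + 1) / 2 : ℝ) : ℂ)))‖ := by
  unfold BB
  rw [norm_prod, Real.log_prod]
  intro x hx
  exact norm_ne_zero_iff.mpr (hB x hx _ (by rw [Complex.ofReal_re]))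

section Main

variable (E : TData S (tn S (Bs : Set S.X) tr ω) D)
  (hB : ∀ x ∈ Bs, ∀ s : ℂ, (ω + 1) / 2 ≤ s.re → (B x).eval (((S.N x : ℕ) : ℂ) ^ (-s)) ≠ 0)

include hB

theorem bbc_ne : BB S Bs B (((ω + 1) / 2 : ℝ) : ℂ) ≠ 0 := BB_ne hB (by rw [Complex.ofReal_re])

theorem HLead.clim (hΛ : 0 < Λ) (h : HLead ((ω + 1) / 2) F ρ Λ) :
    CLim ((ω + 1) / 2) (fun s => F s * BB S Bs B s) ρ
      (Real.log Λ + Real.log ‖BB S Bs B (((ω + 1) / 2 : ℝ) : ℂ)‖) := by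
  have hb := norm_pos_iff.mpr (bbc_ne hB)
  rw [← Real.log_mul hΛ.ne' hb.ne']
  exact clim_of_lead (mul_pos hΛ hb) (h.mul BB_diff.continuous.continuousAt)

include E in
/-- **Theorem (leading value, no continuation assumed, arbitrary bad factors).** -/
theorem lead_meansB (ρ : ℝ) (hΛ : 0 < Λ) :
    List.TFAE [
      ∃ k : ℕ, Tendsto (fun x : ℝ => MK S (Bs : Set S.X) tr ω k x -
        mt ρ (Real.log Λ + Real.log ‖BB S Bs B (((ω + 1) / 2 : ℝ) : ℂ)‖) k x) atTop (𝓝 0),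
      (∃ F : ℂ → ℂ, IsContB S Bs B tr ω F ∧ HLead ((ω + 1) / 2) F ρ Λ) ∧
        ∃ (k : ℕ) (K : ℝ), ∀ᶠ x : ℝ in atTop, -K ≤ MK S (Bs : Set S.X) tr ω k x -
          mt ρ (Real.log Λ + Real.log ‖BB S Bs B (((ω + 1) / 2 : ℝ) : ℂ)‖) k x,
      (∃ F : ℂ → ℂ, IsContB S Bs B tr ω F ∧ HLead ((ω + 1) / 2) F ρ Λ ∧
        ∀ s : ℝ, (ω + 1) / 2 < s → F s ≠ 0) ∧
        ∃ (k : ℕ) (K : ℝ), ∀ᶠ x : ℝ in atTop, MK S (Bs : Set S.X) tr ω k x -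
          mt ρ (Real.log Λ + Real.log ‖BB S Bs B (((ω + 1) / 2 : ℝ) : ℂ)‖) k x ≤ K,
      (∃ F : ℂ → ℂ, IsFullB S Bs B tr ω F ∧ HLead ((ω + 1) / 2) F ρ Λ) ∧
        ∃ (k : ℕ) (K : ℝ), ∀ᶠ x : ℝ in atTop, |MK S (Bs : Set S.X) tr ω k x -
          mt ρ (Real.log Λ + Real.log ‖BB S Bs B (((ω + 1) / 2 : ℝ) : ℂ)‖) k x| ≤ K] := by
  have key := lead_means E ρ (Real.log Λ + Real.log ‖BB S Bs B (((ω + 1) / 2 : ℝ) : ℂ)‖)
  have hb := norm_pos_iff.mpr (bbc_ne hB)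
  tfae_have 1 → 4 := by
    intro h
    obtain ⟨⟨F, hF, hO⟩, hK⟩ := (key.out 0 3).mp h
    refine ⟨⟨_, hF.isFullB E hB, ?_⟩, hK⟩
    rw [← Real.log_mul hΛ.ne' hb.ne'] at hO
    have h1 : HLead ((ω + 1) / 2) F ρ (Λ * ‖BB S Bs B (((ω + 1) / 2 : ℝ) : ℂ)‖) := by
      refine lead_of_clim (mul_pos hΛ hb) ?_ hO
      filter_upwards [self_mem_nhdsWithin] with s hs
      exact hF.2.1 s (by rw [Complex.ofReal_re]; exact hs)
    have h2 := h1.mul (H := fun s => (BB S Bs B s)⁻¹)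
      (BB_diff.continuous.continuousAt.inv₀ (bbc_ne hB))
    rw [norm_inv, mul_assoc, mul_inv_cancel₀ hb.ne', mul_one] at h2
    exact h2
  tfae_have 4 → 2 := by
    rintro ⟨⟨F, hF, hO⟩, k, K, hK⟩
    exact ⟨⟨F, hF.isContB, hO⟩, k, K, hK.mono fun x hx => (abs_le.mp hx).1⟩
  tfae_have 4 → 3 := by
    rintro ⟨⟨F, hF, hO⟩, k, K, hK⟩
    exact ⟨⟨F, hF.isContB, hO, fun s hs => hF.2.1 s (by simpa using hs)⟩, k, K,
      hK.mono fun x hx => (abs_le.mp hx).2⟩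
  tfae_have 2 → 1 := by
    rintro ⟨⟨F, hF, hO⟩, hK⟩
    have k1 := key.out 0 1
    exact k1.mpr ⟨⟨_, hF.isCont E hB, hO.clim hB hΛ⟩, hK⟩
  tfae_have 3 → 1 := by
    rintro ⟨⟨F, hF, hO, hne⟩, hK⟩
    have k1 := key.out 0 2
    refine k1.mpr ⟨⟨_, hF.isCont E hB, hO.clim hB hΛ, fun s hs => ?_⟩, hK⟩
    exact mul_ne_zero (hne s hs) (BB_ne hB (by simp only [Complex.ofReal_re]; linarith))
  tfae_finish

include E in
/-- **Theorem (meromorphic at the centre, arbitrary bad factors).** -/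
theorem mero_meansB (hF : IsContB S Bs B tr ω F) (hm : MeromorphicAt F (((ω + 1) / 2 : ℝ) : ℂ))
    (hn : meromorphicOrderAt F (((ω + 1) / 2 : ℝ) : ℂ) = n) (hΛ : 0 < Λ)
    (hL : HLead ((ω + 1) / 2) F n Λ) :
    List.TFAE [
      ∃ (k : ℕ) (K : ℝ), ∀ᶠ x : ℝ in atTop,
        -(K * Real.log (Real.log x)) ≤ MK S (Bs : Set S.X) tr ω k x,
      (∀ s : ℝ, (ω + 1) / 2 < s → F s ≠ 0) ∧
        ∃ (k : ℕ) (K : ℝ), ∀ᶠ x : ℝ in atTop,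
          MK S (Bs : Set S.X) tr ω k x ≤ K * Real.log (Real.log x),
      ∃ k : ℕ, Tendsto (fun x : ℝ => MK S (Bs : Set S.X) tr ω k x -
        mt n (Real.log Λ + Real.log ‖BB S Bs B (((ω + 1) / 2 : ℝ) : ℂ)‖) k x) atTop (𝓝 0),
      ∃ (k : ℕ) (C : ℝ), ∀ᶠ x : ℝ in atTop, |MK S (Bs : Set S.X) tr ω k x -
        mt n (Real.log Λ + Real.log ‖BB S Bs B (((ω + 1) / 2 : ℝ) : ℂ)‖) k x| ≤ C / Real.log x,
      ∃ G : ℂ → ℂ, IsFullB S Bs B tr ω G ∧ LDB ((ω + 1) / 2) G] := by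
  have hBa : AnalyticAt ℂ (BB S Bs B) (((ω + 1) / 2 : ℝ) : ℂ) := BB_diff.analyticAt _
  have hF1 := hF.isCont E hB
  obtain ⟨hm1, hn1⟩ := order_mul hm hn hBa (bbc_ne hB)
  have key := mero_means E hF1 hm1 hn1 (hL.clim hB hΛ)
  have hz : (∀ s : ℝ, (ω + 1) / 2 < s → F s ≠ 0) ↔
      ∀ s : ℝ, (ω + 1) / 2 < s → F s * BB S Bs B s ≠ 0 := by
    refine forall₂_congr fun s hs => ?_
    have := BB_ne hB (show (ω + 1) / 2 ≤ (s : ℂ).re by rw [Complex.ofReal_re]; exact hs.le)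
    rw [mul_ne_zero_iff]
    tauto
  have hG : (∃ G : ℂ → ℂ, IsFull S (Bs : Set S.X) tr ω G ∧ LDB ((ω + 1) / 2) G) ↔
      ∃ G : ℂ → ℂ, IsFullB S Bs B tr ω G ∧ LDB ((ω + 1) / 2) G := by
    constructor
    · rintro ⟨G, hG, hL⟩
      refine ⟨_, hG.isFullB E hB, LDB_mul_inv hB (fun s hs => ?_) hL⟩
      exact ⟨hG.1.differentiableAt ((isOpen_half _).mem_nhds hs), hG.2.1 s hs⟩
    · rintro ⟨G, hG, hL⟩
      refine ⟨_, IsFullB.isFull E hB hG, LDB_mul hB (fun s hs => ?_) hL⟩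
      exact ⟨hG.1.differentiableAt ((isOpen_half _).mem_nhds hs), hG.2.1 s hs⟩
  rw [← hz, hG] at key
  exact key

include E in
/-- **Theorem (polynomial growth, arbitrary bad factors).** -/
theorem growth_meansB
    (hd : ∀ s : ℂ, (ω + 1) / 2 < s.re → DifferentiableAt ℂ F s)
    (he : ∀ s : ℂ, (ω + 2) / 2 < s.re → F s = LFB S Bs B tr s)
    (hm : MeromorphicAt F (((ω + 1) / 2 : ℝ) : ℂ))
    (hn : meromorphicOrderAt F (((ω + 1) / 2 : ℝ) : ℂ) = n) (hΛ : 0 < Λ)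
    (hL : HLead ((ω + 1) / 2) F n Λ)
    (hg : ∃ (C : ℝ) (A : ℕ), ∀ s : ℂ, (ω + 1) / 2 < s.re → ‖F s‖ ≤ C * (1 + ‖s‖) ^ A) :
    List.TFAE [
      ∀ s : ℂ, (ω + 1) / 2 < s.re → F s ≠ 0,
      ∃ K : ℝ, ∀ᶠ x : ℝ in atTop,
        -(K * Real.log (Real.log x)) ≤ MK S (Bs : Set S.X) tr ω 1 x,
      ∃ C : ℝ, ∀ᶠ x : ℝ in atTop, |MK S (Bs : Set S.X) tr ω 1 x -
        mt n (Real.log Λ + Real.log ‖BB S Bs B (((ω + 1) / 2 : ℝ) : ℂ)‖) 1 x| ≤ C,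
      ∃ C : ℝ, ∀ᶠ x : ℝ in atTop, |MK S (Bs : Set S.X) tr ω 2 x -
        mt n (Real.log Λ + Real.log ‖BB S Bs B (((ω + 1) / 2 : ℝ) : ℂ)‖) 2 x| ≤ C / Real.log x] := by
  have hBa : AnalyticAt ℂ (BB S Bs B) (((ω + 1) / 2 : ℝ) : ℂ) := BB_diff.analyticAt _
  obtain ⟨hm1, hn1⟩ := order_mul hm hn hBa (bbc_ne hB)
  obtain ⟨M, hM⟩ := BB_bdd (S := S) (Bs := Bs) (B := B) (ω := ω)
  obtain ⟨C, A, hC⟩ := hg
  have hg' : ∃ (C : ℝ) (A : ℕ), ∀ s : ℂ, (ω + 1) / 2 < s.re →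
      ‖F s * BB S Bs B s‖ ≤ C * (1 + ‖s‖) ^ A := by
    refine ⟨|C| * |M|, A, fun s hs => ?_⟩
    rw [norm_mul]
    have h1 := hC s hs
    have h2 := hM s hs.le
    have h3 : 0 ≤ (1 + ‖s‖) ^ A := by positivity
    calc ‖F s‖ * ‖BB S Bs B s‖ ≤ (|C| * (1 + ‖s‖) ^ A) * |M| :=
          mul_le_mul (h1.trans (mul_le_mul_of_nonneg_right (le_abs_self C) h3))
            (h2.trans (le_abs_self M)) (norm_nonneg _) (by positivity)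
      _ = _ := by ring
  have key := growth_means E (F := fun s => F s * BB S Bs B s)
    (fun s hs => (hd s hs).mul BB_diff.differentiableAt) (fun s hs => by
      rw [he s hs, LFB_eq E hs, mul_assoc, inv_mul_cancel₀, mul_one]
      exact BB_ne hB (by linarith)) hm1 hn1 (hL.clim hB hΛ) hg'
  have hz : (∀ s : ℂ, (ω + 1) / 2 < s.re → F s ≠ 0) ↔
      ∀ s : ℂ, (ω + 1) / 2 < s.re → F s * BB S Bs B s ≠ 0 := by
    refine forall₂_congr fun s hs => ?_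
    have := BB_ne hB hs.le
    rw [mul_ne_zero_iff]
    tauto
  have k1 := key.out 0 1
  have k2 := key.out 0 2
  have k3 := key.out 0 3
  rw [← hz] at k1 k2 k3
  tfae_have 1 ↔ 2 := k1
  tfae_have 1 ↔ 3 := k2
  tfae_have 1 ↔ 4 := k3
  tfae_finish

include E in
theorem mk_freq_lowerB (hF : IsContB S Bs B tr ω F) (hΛ : 0 < Λ) (hL : HLead ((ω + 1) / 2) F ρ Λ)
    (k : ℕ) {ε : ℝ} (hε : 0 < ε) :
    ∃ᶠ x : ℝ in atTop, MK S (Bs : Set S.X) tr ω k x -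
      mt ρ (Real.log Λ + Real.log ‖BB S Bs B (((ω + 1) / 2 : ℝ) : ℂ)‖) k x < ε :=
  mk_freq_lower E (hF.isCont E hB) (hL.clim hB hΛ) k hε

include E in
theorem mk_freq_upperB (hF : IsContB S Bs B tr ω F) (hΛ : 0 < Λ) (hL : HLead ((ω + 1) / 2) F ρ Λ)
    (hne : ∀ s : ℝ, (ω + 1) / 2 < s → F s ≠ 0) (k : ℕ) {ε : ℝ} (hε : 0 < ε) :
    ∃ᶠ x : ℝ in atTop, -ε < MK S (Bs : Set S.X) tr ω k x -
      mt ρ (Real.log Λ + Real.log ‖BB S Bs B (((ω + 1) / 2 : ℝ) : ℂ)‖) k x :=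
  mk_freq_upper E (hF.isCont E hB) (hL.clim hB hΛ) (fun s hs => mul_ne_zero (hne s hs)
    (BB_ne hB (by rw [Complex.ofReal_re]; exact hs.le))) k hε

end Main

end Pool.Agent.W263.LG
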