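import Pool.Agent.W263.LG.Sys

/-! The meromorphic case: a weak one-sided bound suffices, and there is a rate. -/

set_option autoImplicit false

namespace Pool.Agent.W263.LG

open MeasureTheory Filter Topology Set Classical
open Pool.Agent.W263.BSD Pool.Agent.W263.EP Pool.Agent.W263.MN
open Pool.Agent.H341R2 (NormSys)

variable {S : NormSys} {bad : Set S.X} {tr : S.X → ℕ → ℝ} {ω : ℝ} {D : ℝ} {F G : ℂ → ℂ}
  {ρ L : ℝ} {n : ℤ}

/-- polynomial bounds for the means give polynomial growth of the logarithmic derivative -/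
theorem LDB_of_poly (E : TData S (tn S bad tr ω) D) {j m : ℕ} (hjm : j ≤ m)
    (hconv : ∀ w > 0, LInt (EP.ria (ap S (tn S bad tr ω)) j) w) {K : ℝ}
    (h : ∀ᶠ u in atTop, |EP.ria (zp S (tn S bad tr ω)) j u| ≤ K * pk m u) :
    LDB ((ω + 1) / 2) (FCz S bad tr ω j) := by
  have P := pair E
  set c : ℝ := (ω + 1) / 2 with hc
  have hcc : (c : ℂ) = ((ω : ℂ) + 1) / 2 := c_cast
  obtain ⟨L1, hL1, m1⟩ := maj_lower (P.zl.ria j) (h.mono fun u hu => (abs_le.mp hu).1)
  obtain ⟨L2, hL2, m2⟩ := maj_upper (P.zl.ria j) (h.mono fun u hu => (abs_le.mp hu).2)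
  have hmaj : ∀ u, 0 < u → |EP.ria (zp S (tn S bad tr ω)) j u| ≤ maj m |K| (L1 + L2) u := by
    intro u hu
    have e1 := m1 u hu
    have e2 := m2 u hu
    have hex : 0 < ex (-1) u := by unfold ex; positivity
    have hp := pk_nonneg m hu.le
    have hK := mul_le_mul_of_nonneg_right (le_abs_self K) hp
    unfold maj at e1 e2 ⊢
    have e3 := mul_nonneg hL1 hex.le
    have e4 := mul_nonneg hL2 hex.le
    rw [abs_le]
    constructor <;> linarith
  refine ⟨(|K| + (L1 + L2)) * (1 + |c|) ^ (m + 1), m + 1, fun s hs hs1 => ?_⟩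
  rw [FCz_ld E j le_rfl hconv (by linarith), ← hcc, norm_neg, norm_mul, norm_pow]
  set w : ℂ := s - c with hw
  have hwre : w.re = s.re - c := by rw [hw, Complex.sub_re, Complex.ofReal_re]
  have hw0 : 0 < w.re := by rw [hwre]; linarith
  have hw1 : w.re ≤ 1 := by rw [hwre]; linarith
  have e1 := lapC_norm (maj_LInt m |K| (L1 + L2) hw0) hmaj
  have e2 := maj_lap m |K| (L1 + L2) hw0
  have e3 : lap (maj m |K| (L1 + L2)) w.re ≤ (|K| + (L1 + L2)) * (1 / w.re) ^ (m + 1) := by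
    have e4 : w.re ^ (m + 1) * ((L1 + L2) * (1 / (w.re - -1))) ≤ L1 + L2 := by
      have e5 : 1 / (w.re - -1) ≤ 1 := by rw [div_le_one (by linarith)]; linarith
      have e6 : w.re ^ (m + 1) ≤ 1 := pow_le_one₀ hw0.le hw1
      have e7 : 0 ≤ 1 / (w.re - -1) := by
        apply div_nonneg zero_le_one; linarith
      calc w.re ^ (m + 1) * ((L1 + L2) * (1 / (w.re - -1))) ≤ 1 * ((L1 + L2) * 1) := by gcongr
        _ = _ := by ring
    have e8 : w.re ^ (m + 1) * lap (maj m |K| (L1 + L2)) w.re ≤ |K| + (L1 + L2) := by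
      rw [e2]
      linarith
    rw [one_div, inv_pow, ← div_eq_mul_inv, le_div_iff₀ (pow_pos hw0 _), mul_comm]
    exact e8
  have e9 := (one_add_le c s).2
  rw [← hw] at e9
  calc ‖w‖ ^ (j + 1) * ‖lapC (EP.ria (zp S (tn S bad tr ω)) j) w‖ ≤
      (1 + ‖w‖) ^ (m + 1) * ((|K| + (L1 + L2)) * (1 / w.re) ^ (m + 1)) := by
        refine mul_le_mul ?_ (e1.trans e3) (norm_nonneg _) (by positivity)
        calc ‖w‖ ^ (j + 1) ≤ (1 + ‖w‖) ^ (j + 1) :=
              pow_le_pow_left₀ (norm_nonneg _) (by linarith) _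
          _ ≤ _ := pow_le_pow_right₀ (by linarith [norm_nonneg w]) (by omega)
    _ ≤ ((1 + |c|) * (1 + ‖s‖)) ^ (m + 1) * ((|K| + (L1 + L2)) * (1 / w.re) ^ (m + 1)) := by
        refine mul_le_mul_of_nonneg_right ?_ (by positivity)
        exact pow_le_pow_left₀ (by positivity) e9 _
    _ = _ := by rw [hwre, mul_pow, div_pow, div_pow, one_pow]; ring

theorem pk_le_pow (m : ℕ) {u : ℝ} (hu : 0 ≤ u) : pk m u ≤ u ^ m := by
  unfold pk
  exact div_le_self (by positivity) (by exact_mod_cast Nat.succ_le_of_lt (Nat.factorial_pos _))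

/-- two-sided bounds for the means of the logarithm -/
theorem full_of_abs (E : TData S (tn S bad tr ω) D) {j : ℕ}
    (hconv : ∀ w > 0, LInt (EP.ria (ap S (tn S bad tr ω)) j) w) {K : ℝ}
    (h : ∀ᶠ u in atTop, |EP.ria (ap S (tn S bad tr ω)) j u| ≤ K * pk (j + 1) u) :
    ∃ G : ℂ → ℂ, IsFull S bad tr ω G ∧ LDB ((ω + 1) / 2) G := by
  have P := pair E
  refine ⟨FCz S bad tr ω j, FCz_isFull E j hconv, ?_⟩
  have hi : ∀ U, IntegrableOn (EP.ria (ap S (tn S bad tr ω)) j) (Ioc 0 U) := fun U =>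
    (P.al.ria j).integrableOn (ria_meas P.am j) U
  have h1 := int_gen hi (n := j + 1) (K := K) (K' := K + 1) (by linarith)
    (h.mono fun u hu => (abs_le.mp hu).1)
  have h2 := int_gen (fun U => (hi U).neg) (n := j + 1) (K := K) (K' := K + 1) (by linarith)
    (h.mono fun u hu => by have := (abs_le.mp hu).2; simp only [Pi.neg_apply]; linarith)
  refine LDB_of_poly E (show j ≤ j + 2 by omega) hconv
    (K := ((j : ℝ) + 1) * |K + 1| + |K| * ((j : ℝ) + 2)) ?_
  filter_upwards [h, h1, h2, eventually_gt_atTop 0] with u h3 h4 h5 hu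
  have e5 : EP.intU (-EP.ria (ap S (tn S bad tr ω)) j) u =
      -EP.intU (EP.ria (ap S (tn S bad tr ω)) j) u := intU_neg _ u
  rw [e5] at h5
  have e6 : EP.intU (EP.ria (ap S (tn S bad tr ω)) j) u =
      EP.ria (ap S (tn S bad tr ω)) (j + 1) u := rfl
  rw [e6] at h4 h5
  have hp := pk_nonneg (j + 2) hu.le
  have h6 : |EP.ria (ap S (tn S bad tr ω)) (j + 1) u| ≤ |K + 1| * pk (j + 2) u := by
    have h7 := mul_le_mul_of_nonneg_right (le_abs_self (K + 1)) hp
    rw [abs_le]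
    constructor <;> linarith
  rw [P.id j u]
  have h8 : u * (K * pk (j + 1) u) ≤ |K| * ((j : ℝ) + 2) * pk (j + 2) u := by
    have h9 := pk_mul (j + 1) u
    have e7 : u * (K * pk (j + 1) u) = K * (((j : ℝ) + 2) * pk (j + 2) u) := by
      rw [mul_left_comm, mul_comm u, h9]
      push_cast
      ring
    rw [e7]
    have h10 : 0 ≤ ((j : ℝ) + 2) * pk (j + 2) u := by positivity
    calc K * (((j : ℝ) + 2) * pk (j + 2) u) ≤ |K| * (((j : ℝ) + 2) * pk (j + 2) u) :=
          mul_le_mul_of_nonneg_right (le_abs_self K) h10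
      _ = _ := by ring
  calc |((j : ℝ) + 1) * EP.ria (ap S (tn S bad tr ω)) (j + 1) u -
        u * EP.ria (ap S (tn S bad tr ω)) j u| ≤
      |((j : ℝ) + 1) * EP.ria (ap S (tn S bad tr ω)) (j + 1) u| +
        |u * EP.ria (ap S (tn S bad tr ω)) j u| := abs_sub _ _
    _ ≤ ((j : ℝ) + 1) * (|K + 1| * pk (j + 2) u) + u * (K * pk (j + 1) u) := by
        rw [abs_mul, abs_mul, abs_of_nonneg (by positivity : (0 : ℝ) ≤ (j : ℝ) + 1), abs_of_pos hu]
        gcongr
    _ ≤ ((j : ℝ) + 1) * (|K + 1| * pk (j + 2) u) + |K| * ((j : ℝ) + 2) * pk (j + 2) u := by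
        linarith
    _ = _ := by ring

theorem full_of_weak (E : TData S (tn S bad tr ω) D) {k : ℕ}
    (hconv : ∀ w > 0, LInt (EP.ria (ap S (tn S bad tr ω)) k) w)
    (hlim : Tendsto (fun U : ℝ => EP.intU (EP.ria (ap S (tn S bad tr ω)) k) U /
      (pk (k + 1) U * Real.log U)) atTop (𝓝 ρ)) :
    ∃ G : ℂ → ℂ, IsFull S bad tr ω G ∧ LDB ((ω + 1) / 2) G := by
  have P := pair E
  refine full_of_abs E (j := k + 1) (fun w hw => (lap_intU (ria_meas P.am k) hw (hconv w hw)).1)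
    (K := (|ρ| + 1) * ((k : ℝ) + 2)) ?_
  have h3 := (Metric.tendsto_nhds.mp hlim) 1 one_pos
  filter_upwards [h3, eventually_gt_atTop 1] with u h4 hu
  have hu0 : 0 < u := by linarith
  have hl : 0 < Real.log u := Real.log_pos hu
  have hp : 0 < pk (k + 1) u := by unfold pk; positivity
  rw [Real.dist_eq] at h4
  have h5 : |EP.intU (EP.ria (ap S (tn S bad tr ω)) k) u / (pk (k + 1) u * Real.log u)| ≤
      |ρ| + 1 := by
    have := abs_add_le (EP.intU (EP.ria (ap S (tn S bad tr ω)) k) u /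
      (pk (k + 1) u * Real.log u) - ρ) ρ
    rw [sub_add_cancel] at this
    linarith
  rw [abs_div, abs_of_pos (mul_pos hp hl), div_le_iff₀ (mul_pos hp hl)] at h5
  have e : EP.intU (EP.ria (ap S (tn S bad tr ω)) k) u =
      EP.ria (ap S (tn S bad tr ω)) (k + 1) u := rfl
  rw [e] at h5
  refine h5.trans ?_
  have h6 : Real.log u ≤ u := (Real.log_le_sub_one_of_pos hu0).trans (by linarith)
  have h7 := pk_mul (k + 1) u
  have h8 : pk (k + 1) u * Real.log u ≤ ((k : ℝ) + 2) * pk (k + 2) u := by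
    calc pk (k + 1) u * Real.log u ≤ pk (k + 1) u * u := mul_le_mul_of_nonneg_left h6 hp.le
      _ = _ := by rw [h7]; push_cast; ring
  calc (|ρ| + 1) * (pk (k + 1) u * Real.log u) ≤ (|ρ| + 1) * (((k : ℝ) + 2) * pk (k + 2) u) :=
        mul_le_mul_of_nonneg_left h8 (by positivity)
    _ = _ := by ring

theorem zero_bound : ∃ C : ℝ, ∀ᶠ w : ℝ in 𝓝[>] 0, |((fun _ : ℂ => (0 : ℂ)) (w : ℂ)).re| ≤ C :=
  ⟨0, Eventually.of_forall fun w => by simp⟩

/-- a weak lower bound for the means of `log L` -/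
theorem full_of_lower (E : TData S (tn S bad tr ω) D) (hF : IsCont S bad tr ω F)
    (hW : WOrd ((ω + 1) / 2) F ρ) {k : ℕ} {K : ℝ}
    (h : ∀ᶠ x : ℝ in atTop, -(K * Real.log (Real.log x)) ≤ MK S bad tr ω k x) :
    ∃ G : ℂ → ℂ, IsFull S bad tr ω G ∧ LDB ((ω + 1) / 2) G := by
  obtain ⟨h1, h2⟩ := ((dataP E hF).ria k).mean_weak zero_bound hW.shift (K := K) (by
    filter_upwards [ev_exp h, eventually_gt_atTop 0] with u h1 hu
    rw [Real.log_exp] at h1
    rw [ria_MK k hu]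
    have := mul_le_mul_of_nonneg_left h1 (pk_nonneg k hu.le)
    linarith)
  exact full_of_weak E h1 h2

/-- a weak upper bound for the means of `log L`, no real zeros -/
theorem full_of_upper (E : TData S (tn S bad tr ω) D) (hF : IsCont S bad tr ω F)
    (hW : WOrd ((ω + 1) / 2) F ρ) (hne : ∀ s : ℝ, (ω + 1) / 2 < s → F s ≠ 0) {k : ℕ} {K : ℝ}
    (h : ∀ᶠ x : ℝ in atTop, MK S bad tr ω k x ≤ K * Real.log (Real.log x)) :
    ∃ G : ℂ → ℂ, IsFull S bad tr ω G ∧ LDB ((ω + 1) / 2) G := by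
  obtain ⟨h1, h2⟩ := ((dataP E hF).ria k).mean_weak_lower zero_bound hW.shift (Phi_ne hne)
    (K := K) (by
      filter_upwards [ev_exp h, eventually_gt_atTop 0] with u h1 hu
      rw [Real.log_exp] at h1
      rw [ria_MK k hu]
      have := mul_le_mul_of_nonneg_left h1 (pk_nonneg k hu.le)
      linarith)
  exact full_of_weak E h1 h2

theorem loglog_atTop : Tendsto (fun x : ℝ => Real.log (Real.log x)) atTop atTop :=
  Real.tendsto_log_atTop.comp Real.tendsto_log_atTop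

theorem inv_log_tendsto (C : ℝ) : Tendsto (fun x : ℝ => C / Real.log x) atTop (𝓝 0) :=
  Real.tendsto_log_atTop.const_div_atTop C

/-- bounded difference from the main term gives weak bounds -/
theorem weak_of_bdd {m : ℝ → ℝ} {k : ℕ} {K : ℝ}
    (h : ∀ᶠ x : ℝ in atTop, |m x - mt ρ L k x| ≤ K) :
    ∃ K' : ℝ, 0 ≤ K' ∧ ∀ᶠ x : ℝ in atTop, |m x| ≤ K' * Real.log (Real.log x) := by
  set γ' : ℝ := Real.eulerMascheroniConstant - (harmonic k : ℝ) with hγ
  refine ⟨|K| + |L| + |ρ| * (1 + |γ'|), by positivity, ?_⟩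
  filter_upwards [h, loglog_atTop.eventually (eventually_ge_atTop 1)] with x h1 h2
  have e : m x = (m x - mt ρ L k x) + (L - ρ * (Real.log (Real.log x) + γ')) := by
    unfold mt
    rw [hγ]
    ring
  rw [e]
  set l := Real.log (Real.log x) with hl
  have h3 : |m x - mt ρ L k x| ≤ |K| * l :=
    (h1.trans (le_abs_self K)).trans (le_mul_of_one_le_right (abs_nonneg _) h2)
  have h4 : |L| ≤ |L| * l := le_mul_of_one_le_right (abs_nonneg _) h2
  have h5 : |ρ * (l + γ')| ≤ |ρ| * (1 + |γ'|) * l := by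
    rw [abs_mul]
    have h6 : |l + γ'| ≤ (1 + |γ'|) * l := by
      refine (abs_add_le _ _).trans ?_
      rw [abs_of_nonneg (by linarith : 0 ≤ l)]
      have := le_mul_of_one_le_right (abs_nonneg γ') h2
      linarith
    calc |ρ| * |l + γ'| ≤ |ρ| * ((1 + |γ'|) * l) := mul_le_mul_of_nonneg_left h6 (abs_nonneg _)
      _ = _ := by ring
  calc |(m x - mt ρ L k x) + (L - ρ * (l + γ'))| ≤ |m x - mt ρ L k x| + |L - ρ * (l + γ')| :=
        abs_add_le _ _
    _ ≤ |m x - mt ρ L k x| + (|L| + |ρ * (l + γ')|) := by gcongr; exact abs_sub _ _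
    _ ≤ |K| * l + (|L| * l + |ρ| * (1 + |γ'|) * l) := by linarith
    _ = _ := by ring

/-- **Theorem (meromorphic at the centre).** -/
theorem mero_means (E : TData S (tn S bad tr ω) D) (hF : IsCont S bad tr ω F)
    (hm : MeromorphicAt F (((ω + 1) / 2 : ℝ) : ℂ))
    (hn : meromorphicOrderAt F (((ω + 1) / 2 : ℝ) : ℂ) = n) (hL : CLim ((ω + 1) / 2) F n L) :
    List.TFAE [
      ∃ (k : ℕ) (K : ℝ), ∀ᶠ x : ℝ in atTop, -(K * Real.log (Real.log x)) ≤ MK S bad tr ω k x,
      (∀ s : ℝ, (ω + 1) / 2 < s → F s ≠ 0) ∧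
        ∃ (k : ℕ) (K : ℝ), ∀ᶠ x : ℝ in atTop, MK S bad tr ω k x ≤ K * Real.log (Real.log x),
      ∃ k : ℕ, Tendsto (fun x : ℝ => MK S bad tr ω k x - mt n L k x) atTop (𝓝 0),
      ∃ (k : ℕ) (C : ℝ), ∀ᶠ x : ℝ in atTop,
        |MK S bad tr ω k x - mt n L k x| ≤ C / Real.log x,
      ∃ G : ℂ → ℂ, IsFull S bad tr ω G ∧ LDB ((ω + 1) / 2) G] := by
  have P := pair E
  have hW : WOrd ((ω + 1) / 2) F n := wOrd_of_mero hm hn
  have h54 : (∃ G : ℂ → ℂ, IsFull S bad tr ω G ∧ LDB ((ω + 1) / 2) G) →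
      ∃ (k : ℕ) (C : ℝ), ∀ᶠ x : ℝ in atTop,
        |MK S bad tr ω k x - mt n L k x| ≤ C / Real.log x := by
    rintro ⟨G, hG, hld⟩
    obtain ⟨k, C, hC⟩ := means_of_LDB E hF hm hn hG hld
    have h1 : ∀ᶠ u in atTop, |EP.ria (zp S (tn S bad tr ω)) k u + (n : ℝ) * pk (k + 1) u| ≤
        C * pk k u := by
      filter_upwards [ev_exp hC, eventually_gt_atTop 0] with u h2 hu
      rw [Real.log_exp] at h2
      have hp : 0 < pk k u := by unfold pk; positivity
      have e1 : (n : ℝ) * pk (k + 1) u = pk k u * (n / ((k : ℝ) + 1) * u) := by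
        have := pk_mul k u
        have e2 : ((k : ℝ) + 1) ≠ 0 := by positivity
        rw [mul_comm (_ / _) u, ← mul_assoc, this]
        field_simp
      rw [ria_ZK k hu, e1, ← mul_add, abs_mul, abs_of_pos hp, mul_comm]
      exact mul_le_mul_of_nonneg_right h2 hp.le
    obtain ⟨_, C', hC'⟩ := rate P (dataP E hF) hL.shift (raise P h1)
    refine ⟨k + 2, |C'| * (k + 2).factorial, ?_⟩
    refine ev_log ?_
    filter_upwards [hC', eventually_gt_atTop 0] with u h2 hu
    rw [rem_MK _ hu, abs_mul, abs_of_nonneg (pk_nonneg _ hu.le)] at h2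
    rw [Real.log_exp, le_div_iff₀ hu]
    have hp : 0 < u ^ (k + 1) := pow_pos hu _
    have h3 : pk (k + 2) u = u ^ (k + 1) * (u / (k + 2).factorial) := by
      unfold pk; ring
    rw [h3] at h2
    have h4 : u ^ (k + 1) * ((u / (k + 2).factorial) *
        |MK S bad tr ω (k + 2) (Real.exp u) - mt n L (k + 2) (Real.exp u)|) ≤
        u ^ (k + 1) * |C'| := by
      calc _ = u ^ (k + 1) * (u / (k + 2).factorial) *
            |MK S bad tr ω (k + 2) (Real.exp u) - mt n L (k + 2) (Real.exp u)| := by ring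
        _ ≤ C' * u ^ (k + 1) := h2
        _ ≤ |C'| * u ^ (k + 1) := mul_le_mul_of_nonneg_right (le_abs_self _) hp.le
        _ = _ := by ring
    have h5 := le_of_mul_le_mul_left h4 hp
    have hf : (0 : ℝ) < (k + 2).factorial := by positivity
    have h6 := mul_le_mul_of_nonneg_right h5 hf.le
    calc |MK S bad tr ω (k + 2) (Real.exp u) - mt n L (k + 2) (Real.exp u)| * u =
        (u / (k + 2).factorial) *
          |MK S bad tr ω (k + 2) (Real.exp u) - mt n L (k + 2) (Real.exp u)| *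
          (k + 2).factorial := by field_simp
      _ ≤ _ := h6
  have h4b : ∀ {k : ℕ} {C : ℝ}, (∀ᶠ x : ℝ in atTop,
      |MK S bad tr ω k x - mt n L k x| ≤ C / Real.log x) →
      Tendsto (fun x : ℝ => MK S bad tr ω k x - mt n L k x) atTop (𝓝 0) := fun {k C} h =>
    squeeze_zero_norm' h (inv_log_tendsto C)
  have hbd : ∀ {k : ℕ}, Tendsto (fun x : ℝ => MK S bad tr ω k x - mt n L k x) atTop (𝓝 0) →
      ∀ᶠ x : ℝ in atTop, |MK S bad tr ω k x - mt n L k x| ≤ 1 := by
    intro k h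
    filter_upwards [(Metric.tendsto_nhds.mp h) 1 one_pos] with x hx
    rw [Real.dist_eq, sub_zero] at hx
    exact hx.le
  tfae_have 1 → 5 := fun ⟨k, K, h⟩ => full_of_lower E hF hW h
  tfae_have 2 → 5 := fun ⟨hne, k, K, h⟩ => full_of_upper E hF hW hne h
  tfae_have 5 → 4 := h54
  tfae_have 4 → 3 := fun ⟨k, C, h⟩ => ⟨k, h4b h⟩
  tfae_have 3 → 1 := by
    rintro ⟨k, h⟩
    obtain ⟨K', _, h1⟩ := weak_of_bdd (hbd h)
    exact ⟨k, K', h1.mono fun x hx => (abs_le.mp hx).1⟩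
  tfae_have 5 → 2 := by
    intro h
    obtain ⟨k, C, h1⟩ := h54 h
    obtain ⟨K', _, h2⟩ := weak_of_bdd (hbd (h4b h1))
    obtain ⟨G, hG, _⟩ := h
    refine ⟨fun s hs => ?_, k, K', h2.mono fun x hx => (abs_le.mp hx).2⟩
    rw [cont_eq_full hF hG hs]
    exact hG.2.1 s (by rw [Complex.ofReal_re]; exact hs)
  tfae_finish

end Pool.Agent.W263.LG
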