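import Pool.Agent.W263.LG.GrowthL

/-! The means of the logarithms of the central local factors and the means of `log L`. -/

set_option autoImplicit false

namespace Pool.Agent.W263.LG

open MeasureTheory Filter Topology Set Classical
open Pool.Agent.W263.BSD Pool.Agent.W263.EP Pool.Agent.W263.MN
open Pool.Agent.H341R2 (NormSys)

variable {S : NormSys} {bad : Set S.X} {tr : S.X → ℕ → ℝ} {ω : ℝ} {D : ℝ} {F G : ℂ → ℂ}
  {ρ L : ℝ} {n : ℤ}

theorem pow_sub_le {a b : ℝ} (ha : 0 ≤ a) (hab : a ≤ b) (hb : b ≤ 1) (k : ℕ) :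
    |(1 - a) ^ k - (1 - b) ^ k| ≤ k * b := by
  induction k with
  | zero => simp
  | succ k ih =>
    have h1 : 0 ≤ 1 - a := by linarith
    have h2 : 0 ≤ 1 - b := by linarith
    have h3 : (1 - b) ^ k ≤ 1 := pow_le_one₀ h2 (by linarith)
    have h4 : 0 ≤ (1 - b) ^ k := pow_nonneg h2 k
    have e : (1 - a) ^ (k + 1) - (1 - b) ^ (k + 1) =
        (1 - a) * ((1 - a) ^ k - (1 - b) ^ k) + (b - a) * (1 - b) ^ k := by ring
    rw [e]
    refine (abs_add_le _ _).trans ?_
    rw [abs_mul, abs_mul, abs_of_nonneg h1, abs_of_nonneg (by linarith : 0 ≤ b - a),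
      abs_of_nonneg h4]
    have h5 : (1 - a) * |(1 - a) ^ k - (1 - b) ^ k| ≤ 1 * (k * b) :=
      mul_le_mul (by linarith) ih (abs_nonneg _) zero_le_one
    have h6 : (b - a) * (1 - b) ^ k ≤ b * 1 := mul_le_mul (by linarith) h3 h4 (by linarith)
    push_cast
    linarith

/-- the two kinds of means differ by a bounded amount -/
theorem RK_MK (E : TData S (tn S bad tr ω) D) (k : ℕ) :
    ∃ C : ℝ, ∀ᶠ x : ℝ in atTop, |RK S bad tr ω k x + MK S bad tr ω k x| ≤ C := by
  obtain ⟨C, hC0, hC⟩ := cheb S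
  have hD := E.nonneg
  set t := tn S bad tr ω with ht
  set Γ : ℝ := ∑' m : ℕ, (3 / 4 : ℝ) ^ (m - 1) with hΓ
  have hΓ0 : 0 ≤ Γ := tsum_nonneg fun m => by positivity
  refine ⟨D * ((k : ℝ) + 1) * Γ * C, ev_log ?_⟩
  filter_upwards [hC, eventually_gt_atTop 0] with u h1 hu
  set T : Finset S.X := (fin_norm S (Real.exp u)).toFinset with hT
  set P : Finset (pw S).X := (fin_norm (pw S) (Real.exp u)).toFinset with hP
  set W : ℝ → ℝ := fun v => (1 - v / u) ^ k with hW
  have hpk : 0 < pk k u := by unfold pk; positivity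
  -- the two sums
  have hR : RK S bad tr ω k (Real.exp u) = ∑ x ∈ T, cc S t x * W (Real.log (S.N x)) := by
    have h2 := ria_RK (S := S) (bad := bad) (tr := tr) (ω := ω) k hu
    have h3 := ria_sum (S := S) (t := t) k u
    rw [h2] at h3
    have h4 : pk k u * RK S bad tr ω k (Real.exp u) =
        pk k u * ∑ x ∈ T, cc S t x * W (Real.log (S.N x)) := by
      rw [h3, Finset.mul_sum]
      refine Finset.sum_congr rfl fun x _ => ?_
      rw [hW]
      unfold pk
      have e : 1 - Real.log (S.N x) / u = (u - Real.log (S.N x)) / u := by field_simp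
      simp only []
      rw [e, div_pow]
      field_simp
    exact mul_left_cancel₀ hpk.ne' h4
  have hM : MK S bad tr ω k (Real.exp u) = -∑ p ∈ P, ca S t p * W (Real.log ((pw S).N p)) := by
    have h2 := ria_MK (S := S) (bad := bad) (tr := tr) (ω := ω) k hu
    have h3 : EP.ria (ap S t) k u = ∑ p ∈ P,
        ca S t p * ((u - Real.log ((pw S).N p)) ^ k / (k.factorial : ℝ)) :=
      ria_stp (pw S) (ca S t) k u
    rw [h2] at h3
    have h4 : pk k u * MK S bad tr ω k (Real.exp u) =
        pk k u * -∑ p ∈ P, ca S t p * W (Real.log ((pw S).N p)) := by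
      have h5 : pk k u * MK S bad tr ω k (Real.exp u) = -∑ p ∈ P,
        ca S t p * ((u - Real.log ((pw S).N p)) ^ k / (k.factorial : ℝ)) := by linarith
      rw [h5, mul_neg, Finset.mul_sum]
      congr 1
      refine Finset.sum_congr rfl fun p _ => ?_
      rw [hW]
      unfold pk
      have e : 1 - Real.log ((pw S).N p) / u = (u - Real.log ((pw S).N p)) / u := by field_simp
      simp only []
      rw [e, div_pow]
      field_simp
    exact mul_left_cancel₀ hpk.ne' h4
  -- the second sum as a sum over the places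
  set J : S.X → ℕ → ℝ := fun x m =>
    if ((m : ℝ) + 1) * Real.log (S.N x) ≤ u then
      ca S t (x, m) * W (((m : ℝ) + 1) * Real.log (S.N x)) else 0 with hJ
  obtain ⟨M, hMM⟩ : ∃ M : ℕ, ∀ p ∈ P, p.2 < M := by
    refine ⟨P.sup (fun p => p.2) + 1, fun p hp => ?_⟩
    have := Finset.le_sup (f := fun p : (pw S).X => p.2) hp
    exact Nat.lt_succ_of_le this
  have hmemP : ∀ p : (pw S).X, p ∈ P ↔ ((p.2 : ℝ) + 1) * Real.log (S.N p.1) ≤ u := by
    intro p
    rw [hP, mem_fin, pw_log]
  have hsub : P ⊆ (T ×ˢ Finset.range M : Finset (S.X × ℕ)) := by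
    intro p hp
    have h5 := (hmemP p).mp hp
    have hl := logN_pos (S := S) p.1
    refine Finset.mem_product.mpr ⟨mem_fin.mpr ?_, Finset.mem_range.mpr (hMM p hp)⟩
    have : (0 : ℝ) ≤ p.2 := Nat.cast_nonneg _
    nlinarith
  have hJz : ∀ x : S.X, ∀ m : ℕ, m ∉ Finset.range M → J x m = 0 := by
    intro x m hm
    rw [hJ]
    simp only []
    rw [if_neg]
    intro hcon
    have := hMM (x, m) ((hmemP (x, m)).mpr hcon)
    exact hm (Finset.mem_range.mpr this)
  have hsum2 : ∑ p ∈ P, ca S t p * W (Real.log ((pw S).N p)) = ∑ x ∈ T, ∑' m, J x m := by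
    have e1 : ∑ p ∈ P, ca S t p * W (Real.log ((pw S).N p)) = ∑ p ∈ P, J p.1 p.2 := by
      refine Finset.sum_congr rfl fun p hp => ?_
      rw [hJ]
      simp only []
      rw [if_pos ((hmemP p).mp hp), pw_log]
      rfl
    rw [e1]
    have e2 : ∑ p ∈ P, J p.1 p.2 = ∑ p ∈ (T ×ˢ Finset.range M : Finset (S.X × ℕ)), J p.1 p.2 := by
      refine Finset.sum_subset hsub fun p _ hp => ?_
      rw [hJ]
      simp only []
      rw [if_neg]
      intro hcon
      exact hp ((hmemP p).mpr hcon)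
    rw [e2, Finset.sum_product]
    refine Finset.sum_congr rfl fun x _ => ?_
    exact (tsum_eq_sum (hJz x)).symm
  -- the difference at a place
  have hterm : ∀ x ∈ T, |cc S t x * W (Real.log (S.N x)) - ∑' m, J x m| ≤
      (D * ((k : ℝ) + 1) / u) * (Real.log (S.N x) * (S.N x : ℝ) ^ (-1 : ℝ)) * Γ := by
    intro x hx
    set ℓ := Real.log (S.N x) with hℓ
    have hℓ0 : 0 < ℓ := logN_pos x
    have hℓu : ℓ ≤ u := mem_fin.mp hx
    have hcc : HasSum (fun m : ℕ => ca S t (x, m)) (cc S t x) := E.cc_hasSum x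
    have hJs : Summable (J x) := summable_of_ne_finset_zero (s := Finset.range M) (hJz x)
    have hd := (hcc.mul_right (W ℓ)).sub hJs.hasSum
    have hgeo : HasSum (fun m : ℕ => (3 / 4 : ℝ) ^ (m - 1)) Γ := (geo_summable 1).hasSum
    have hbnd := hgeo.mul_left ((D * ((k : ℝ) + 1) / u) * (ℓ * (S.N x : ℝ) ^ (-1 : ℝ)))
    have hW1 : ∀ v, 0 ≤ v → v ≤ u → 0 ≤ W v ∧ W v ≤ 1 := by
      intro v h2 h3
      have h4 : 0 ≤ 1 - v / u := by
        have : v / u ≤ 1 := by rw [div_le_one hu]; exact h3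
        linarith
      have h5 : 1 - v / u ≤ 1 := by
        have : 0 ≤ v / u := by positivity
        linarith
      exact ⟨pow_nonneg h4 k, pow_le_one₀ h4 h5⟩
    rw [← hd.tsum_eq]
    have key : ∀ m : ℕ, ‖ca S t (x, m) * W ℓ - J x m‖ ≤
        (D * ((k : ℝ) + 1) / u) * (ℓ * (S.N x : ℝ) ^ (-1 : ℝ)) * (3 / 4 : ℝ) ^ (m - 1) := by
      intro m
      rw [Real.norm_eq_abs]
      rcases Nat.eq_zero_or_pos m with hm | hm
      · have e0 : ca S t (x, m) * W ℓ - J x m = 0 := by
          rw [hJ]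
          simp only []
          rw [hm, Nat.cast_zero, zero_add, one_mul, if_pos hℓu, sub_self]
        rw [e0, abs_zero]
        positivity
      · -- difference of the weights
        have hwd : |ca S t (x, m) * W ℓ - J x m| ≤
            |ca S t (x, m)| * (((k : ℝ) + 1) * ((((m : ℝ) + 1) * ℓ) / u)) := by
          have hb0 : 0 < ((m : ℝ) + 1) * ℓ := by positivity
          rw [hJ]
          simp only []
          split_ifs with hcase
          · rw [← mul_sub, abs_mul]
            refine mul_le_mul_of_nonneg_left ?_ (abs_nonneg _)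
            have h2 : ℓ / u ≤ (((m : ℝ) + 1) * ℓ) / u := by
              refine div_le_div_of_nonneg_right ?_ hu.le
              have : (0 : ℝ) ≤ m := Nat.cast_nonneg m
              nlinarith
            have h3 := pow_sub_le (a := ℓ / u) (b := (((m : ℝ) + 1) * ℓ) / u) (by positivity) h2
              (by rw [div_le_one hu]; exact hcase) k
            have h4 : (k : ℝ) * ((((m : ℝ) + 1) * ℓ) / u) ≤
                ((k : ℝ) + 1) * ((((m : ℝ) + 1) * ℓ) / u) :=
              mul_le_mul_of_nonneg_right (by linarith) (by positivity)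
            exact h3.trans h4
          · rw [sub_zero, abs_mul]
            refine mul_le_mul_of_nonneg_left ?_ (abs_nonneg _)
            obtain ⟨h2, h3⟩ := hW1 ℓ hℓ0.le hℓu
            rw [abs_of_nonneg h2]
            have h4 : 1 ≤ (((m : ℝ) + 1) * ℓ) / u := by
              rw [one_le_div hu]; exact (not_le.mp hcase).le
            have h5 : (1 : ℝ) ≤ (k : ℝ) + 1 := by
              have : (0 : ℝ) ≤ k := Nat.cast_nonneg k
              linarith
            nlinarith
        refine hwd.trans ?_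
        have h2 := E.bound x m
        have h6 : hh S x ^ (m + 1) ≤ (S.N x : ℝ) ^ (-1 : ℝ) * (3 / 4 : ℝ) ^ (m - 1) := by
          obtain ⟨i, hi⟩ := Nat.exists_eq_succ_of_ne_zero hm.ne'
          rw [hi, Nat.succ_eq_add_one, Nat.add_sub_cancel, ← hh_sq,
            show i + 1 + 1 = 2 + i by ring, pow_add]
          exact mul_le_mul_of_nonneg_left
            (pow_le_pow_left₀ (hh_pos (S := S) x).le (hh_le (S := S) x) i) (by positivity)
        have hca : |ca S t (x, m)| * ((m : ℝ) + 1) ≤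
            D * ((S.N x : ℝ) ^ (-1 : ℝ) * (3 / 4 : ℝ) ^ (m - 1)) := by
          have e1 : |ca S t (x, m)| * ((m : ℝ) + 1) = |t x (m + 1)| := by
            have e2 : ca S t (x, m) = -(t x (m + 1) / ((m : ℝ) + 1)) := rfl
            rw [e2, abs_neg, abs_div, abs_of_pos (by positivity : (0 : ℝ) < (m : ℝ) + 1)]
            field_simp
          rw [e1]
          exact h2.trans (mul_le_mul_of_nonneg_left h6 hD)
        calc |ca S t (x, m)| * (((k : ℝ) + 1) * ((((m : ℝ) + 1) * ℓ) / u)) =
            (|ca S t (x, m)| * ((m : ℝ) + 1)) * (((k : ℝ) + 1) * ℓ / u) := by ring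
          _ ≤ (D * ((S.N x : ℝ) ^ (-1 : ℝ) * (3 / 4 : ℝ) ^ (m - 1))) *
              (((k : ℝ) + 1) * ℓ / u) := mul_le_mul_of_nonneg_right hca (by positivity)
          _ = _ := by ring
    exact tsum_of_norm_bounded hbnd key
  rw [hR, hM, hsum2, ← sub_eq_add_neg, ← Finset.sum_sub_distrib]
  calc |∑ x ∈ T, (cc S t x * W (Real.log (S.N x)) - ∑' m, J x m)| ≤
      ∑ x ∈ T, |cc S t x * W (Real.log (S.N x)) - ∑' m, J x m| := Finset.abs_sum_le_sum_abs _ _
    _ ≤ ∑ x ∈ T, (D * ((k : ℝ) + 1) / u) * (Real.log (S.N x) * (S.N x : ℝ) ^ (-1 : ℝ)) * Γ :=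
        Finset.sum_le_sum hterm
    _ = (D * ((k : ℝ) + 1) / u) * Γ *
        ∑ x ∈ T, Real.log (S.N x) * (S.N x : ℝ) ^ (-1 : ℝ) := by
        rw [Finset.mul_sum]
        refine Finset.sum_congr rfl fun x _ => ?_
        ring
    _ ≤ (D * ((k : ℝ) + 1) / u) * Γ * (C * u) := mul_le_mul_of_nonneg_left h1 (by positivity)
    _ = _ := by field_simp

/-- upper bounds for the means of the logarithms of the local factors -/
theorem RK_upper_iff (E : TData S (tn S bad tr ω) D) {k : ℕ} :
    (∃ K : ℝ, ∀ᶠ x : ℝ in atTop, RK S bad tr ω k x ≤ K * Real.log (Real.log x)) ↔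
      ∃ K : ℝ, ∀ᶠ x : ℝ in atTop, -(K * Real.log (Real.log x)) ≤ MK S bad tr ω k x := by
  obtain ⟨C, hC⟩ := RK_MK E k
  constructor
  · rintro ⟨K, h⟩
    refine ⟨K + |C|, ?_⟩
    filter_upwards [hC, h, loglog_atTop.eventually (eventually_ge_atTop 1)] with x h1 h2 h3
    have h4 := (abs_le.mp h1).1
    have h5 : |C| ≤ |C| * Real.log (Real.log x) := le_mul_of_one_le_right (abs_nonneg _) h3
    have h6 := le_abs_self C
    linarith
  · rintro ⟨K, h⟩
    refine ⟨K + |C|, ?_⟩
    filter_upwards [hC, h, loglog_atTop.eventually (eventually_ge_atTop 1)] with x h1 h2 h3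
    have h4 := (abs_le.mp h1).2
    have h5 : |C| ≤ |C| * Real.log (Real.log x) := le_mul_of_one_le_right (abs_nonneg _) h3
    have h6 := le_abs_self C
    linarith

theorem RK_lower_iff (E : TData S (tn S bad tr ω) D) {k : ℕ} :
    (∃ K : ℝ, ∀ᶠ x : ℝ in atTop, -(K * Real.log (Real.log x)) ≤ RK S bad tr ω k x) ↔
      ∃ K : ℝ, ∀ᶠ x : ℝ in atTop, MK S bad tr ω k x ≤ K * Real.log (Real.log x) := by
  obtain ⟨C, hC⟩ := RK_MK E k
  constructor
  · rintro ⟨K, h⟩
    refine ⟨K + |C|, ?_⟩
    filter_upwards [hC, h, loglog_atTop.eventually (eventually_ge_atTop 1)] with x h1 h2 h3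
    have h4 := (abs_le.mp h1).2
    have h5 : |C| ≤ |C| * Real.log (Real.log x) := le_mul_of_one_le_right (abs_nonneg _) h3
    have h6 := le_abs_self C
    linarith
  · rintro ⟨K, h⟩
    refine ⟨K + |C|, ?_⟩
    filter_upwards [hC, h, loglog_atTop.eventually (eventually_ge_atTop 1)] with x h1 h2 h3
    have h4 := (abs_le.mp h1).1
    have h5 : |C| ≤ |C| * Real.log (Real.log x) := le_mul_of_one_le_right (abs_nonneg _) h3
    have h6 := le_abs_self C
    linarith

/-- bounded difference from a main term, for both kinds of means -/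
theorem RK_bdd_iff (E : TData S (tn S bad tr ω) D) {k : ℕ} {g : ℝ → ℝ} :
    (∃ K : ℝ, ∀ᶠ x : ℝ in atTop, |RK S bad tr ω k x - g x| ≤ K) ↔
      ∃ K : ℝ, ∀ᶠ x : ℝ in atTop, |MK S bad tr ω k x + g x| ≤ K := by
  obtain ⟨C, hC⟩ := RK_MK E k
  constructor
  · rintro ⟨K, h⟩
    refine ⟨C + K, ?_⟩
    filter_upwards [hC, h] with x h1 h2
    have e : MK S bad tr ω k x + g x = (RK S bad tr ω k x + MK S bad tr ω k x) -
        (RK S bad tr ω k x - g x) := by ring
    rw [e]
    exact (abs_sub _ _).trans (add_le_add h1 h2)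
  · rintro ⟨K, h⟩
    refine ⟨C + K, ?_⟩
    filter_upwards [hC, h] with x h1 h2
    have e : RK S bad tr ω k x - g x = (RK S bad tr ω k x + MK S bad tr ω k x) -
        (MK S bad tr ω k x + g x) := by ring
    rw [e]
    exact (abs_sub _ _).trans (add_le_add h1 h2)

end Pool.Agent.W263.LG
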