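import Pool.Agent.W263.LG.Abs

/-! From the von Mangoldt means to the means of the logarithm, with a rate. -/

set_option autoImplicit false

namespace Pool.Agent.W263.LG

open MeasureTheory Filter Topology Set
open Pool.Agent.W263.BSD Pool.Agent.W263.EP Pool.Agent.W263.MN

variable {a z f : ℝ → ℝ} {ρ L : ℝ} {Φ : ℂ → ℂ} {c0 : ℝ}

theorem rem_id (P : Pair a z) (k : ℕ) (u : ℝ) :
    u * rem a ρ L k u - ((k : ℝ) + 1) * rem a ρ L (k + 1) u =
      EP.ria z k u + ρ * pk (k + 1) u := by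
  have h1 := P.id k u
  have h2 := pk_mul k u
  have hk : ((k : ℝ) + 1) ≠ 0 := by positivity
  unfold rem ml
  rw [harmonic_succ_real]
  have e : ((k : ℝ) + 1) * (pk (k + 1) u * (Real.log u + Real.eulerMascheroniConstant -
      ((harmonic k : ℝ) + 1 / ((k : ℝ) + 1)))) =
      (pk k u * u) * (Real.log u + Real.eulerMascheroniConstant - (harmonic k : ℝ)) -
        pk (k + 1) u := by
    rw [h2]
    field_simp
    ring
  have e2 : ((k : ℝ) + 1) * (-EP.ria a (k + 1) u + ρ * (pk (k + 1) u * (Real.log u +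
      Real.eulerMascheroniConstant - ((harmonic k : ℝ) + 1 / ((k : ℝ) + 1)))) -
        L * pk (k + 1) u) = -(((k : ℝ) + 1) * EP.ria a (k + 1) u) +
      ρ * ((pk k u * u) * (Real.log u + Real.eulerMascheroniConstant - (harmonic k : ℝ)) -
        pk (k + 1) u) - L * (pk k u * u) := by
    rw [← e, h2]
    ring
  rw [e2, h1]
  ring

theorem pk_hasDerivAt (k : ℕ) (u : ℝ) : HasDerivAt (pk (k + 1)) (pk k u) u := by
  unfold pk
  have := (hasDerivAt_pow (k + 1) u).div_const ((k + 1).factorial : ℝ)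
  refine this.congr_deriv ?_
  rw [Nat.factorial_succ]
  have : (k.factorial : ℝ) ≠ 0 := by positivity
  have : ((k : ℝ) + 1) ≠ 0 := by positivity
  push_cast
  field_simp

theorem rem_deriv (ha : Measurable a) (hl : Loc a) (k : ℕ) {u : ℝ} (hu : 0 < u) :
    HasDerivAt (rem a ρ L (k + 2)) (rem a ρ L (k + 1) u) u := by
  have hc : ContinuousAt (EP.ria a (k + 1)) u := intU_cont (ria_meas ha k) (hl.ria k) hu
  have hd : HasDerivAt (EP.ria a (k + 2)) (EP.ria a (k + 1) u) u :=
    intU_deriv (ria_meas ha (k + 1)) (hl.ria (k + 1)) hu hc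
  exact ((hd.neg.add ((ml_hasDerivAt (k + 1) hu).const_mul ρ))).sub
    ((pk_hasDerivAt (k + 1) u).const_mul L)

/-- variation of `rem / u^(k+2)` -/
theorem rem_var (P : Pair a z) {k : ℕ} {C U : ℝ} (hU : 0 < U) (hC : 0 ≤ C)
    (h : ∀ u, U ≤ u → |EP.ria z (k + 1) u + ρ * pk (k + 2) u| ≤ C * u ^ (k + 1)) {u v : ℝ}
    (huU : U ≤ u) (huv : u ≤ v) :
    |rem a ρ L (k + 2) v / v ^ (k + 2) - rem a ρ L (k + 2) u / u ^ (k + 2)| ≤ C / u := by
  set F : ℝ → ℝ := fun u => rem a ρ L (k + 2) u / u ^ (k + 2) with hF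
  have hder : ∀ x, 0 < x → HasDerivAt F
      ((EP.ria z (k + 1) x + ρ * pk (k + 2) x) / x ^ (k + 3)) x := by
    intro x hx
    have hp : HasDerivAt (fun u : ℝ => u ^ (k + 2)) (((k + 2 : ℕ) : ℝ) * x ^ (k + 1)) x := by
      simpa using hasDerivAt_pow (k + 2) x
    have hd := (rem_deriv (ρ := ρ) (L := L) P.am P.al k hx).div hp (pow_pos hx _).ne'
    refine hd.congr_deriv ?_
    have h1 := rem_id (ρ := ρ) (L := L) P (k + 1) x
    rw [← h1]
    have hx' : x ≠ 0 := hx.ne'
    push_cast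
    field_simp
    ring
  have hinv : ∀ x, 0 < x → HasDerivAt (fun u : ℝ => C / u) (-(C / x ^ 2)) x := by
    intro x hx
    have := (hasDerivAt_inv hx.ne').const_mul C
    refine (this.congr_of_eventuallyEq (Eventually.of_forall fun y => ?_)).congr_deriv ?_
    · simp only [div_eq_mul_inv]
    · field_simp
  have hb : ∀ x, U ≤ x → |(EP.ria z (k + 1) x + ρ * pk (k + 2) x) / x ^ (k + 3)| ≤ C / x ^ 2 := by
    intro x hx
    have hx0 : 0 < x := by linarith
    rw [abs_div, abs_of_pos (pow_pos hx0 _), div_le_div_iff₀ (pow_pos hx0 _) (pow_pos hx0 _)]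
    calc |EP.ria z (k + 1) x + ρ * pk (k + 2) x| * x ^ 2 ≤ (C * x ^ (k + 1)) * x ^ 2 :=
          mul_le_mul_of_nonneg_right (h x hx) (by positivity)
      _ = C * x ^ (k + 3) := by ring
  have hv0 : 0 < u := by linarith
  have hanti : AntitoneOn (fun x => F x + C / x) (Ici U) := by
    refine antitoneOn_of_deriv_nonpos (convex_Ici U) (fun x hx => ?_) (fun x hx => ?_)
      fun x hx => ?_
    · have hx0 : 0 < x := lt_of_lt_of_le hU hx
      exact ((hder x hx0).add (hinv x hx0)).continuousAt.continuousWithinAt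
    · rw [interior_Ici] at hx
      have hx0 : 0 < x := lt_trans hU hx
      exact ((hder x hx0).add (hinv x hx0)).differentiableAt.differentiableWithinAt
    · rw [interior_Ici] at hx
      have hx0 : 0 < x := lt_trans hU hx
      have e := ((hder x hx0).add (hinv x hx0)).deriv
      have e' : deriv (fun x => F x + C / x) x =
        (EP.ria z (k + 1) x + ρ * pk (k + 2) x) / x ^ (k + 3) + -(C / x ^ 2) := e
      rw [e']
      have := (abs_le.mp (hb x hx.le)).2
      linarith
  have hmono : MonotoneOn (fun x => F x - C / x) (Ici U) := by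
    refine monotoneOn_of_deriv_nonneg (convex_Ici U) (fun x hx => ?_) (fun x hx => ?_)
      fun x hx => ?_
    · have hx0 : 0 < x := lt_of_lt_of_le hU hx
      exact ((hder x hx0).sub (hinv x hx0)).continuousAt.continuousWithinAt
    · rw [interior_Ici] at hx
      have hx0 : 0 < x := lt_trans hU hx
      exact ((hder x hx0).sub (hinv x hx0)).differentiableAt.differentiableWithinAt
    · rw [interior_Ici] at hx
      have hx0 : 0 < x := lt_trans hU hx
      have e := ((hder x hx0).sub (hinv x hx0)).deriv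
      have e' : deriv (fun x => F x - C / x) x =
        (EP.ria z (k + 1) x + ρ * pk (k + 2) x) / x ^ (k + 3) - -(C / x ^ 2) := e
      rw [e']
      have := (abs_le.mp (hb x hx.le)).1
      linarith
  have h1 := hanti (show u ∈ Ici U from huU) (show v ∈ Ici U from huU.trans huv) huv
  have h2 := hmono (show u ∈ Ici U from huU) (show v ∈ Ici U from huU.trans huv) huv
  simp only at h1 h2
  have h3 : 0 ≤ C / v := div_nonneg hC (by linarith)
  rw [abs_le]
  constructor <;> linarith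

/-- **The means of the logarithm with a rate.** -/
theorem rate (P : Pair a z) (D : DataU 1 a Φ (fun _ => 0) c0) (hL : LimL Φ ρ L) {k : ℕ} {C : ℝ}
    (h : ∀ᶠ u in atTop, |EP.ria z (k + 1) u + ρ * pk (k + 2) u| ≤ C * pk (k + 1) u) :
    (∀ w > 0, LInt (EP.ria a (k + 2)) w) ∧
      ∃ C' : ℝ, ∀ᶠ u in atTop, |rem a ρ L (k + 2) u| ≤ C' * u ^ (k + 1) := by
  set C1 : ℝ := |C| / (k + 1).factorial with hC1
  have hC10 : 0 ≤ C1 := by positivity
  obtain ⟨U0, hU0⟩ := eventually_atTop.mp h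
  set U : ℝ := max U0 1 with hUdef
  have hU : 0 < U := lt_of_lt_of_le one_pos (le_max_right _ _)
  have h1 : ∀ u, U ≤ u → |EP.ria z (k + 1) u + ρ * pk (k + 2) u| ≤ C1 * u ^ (k + 1) := by
    intro u hu
    have hu0 : 0 < u := by linarith
    refine (hU0 u ((le_max_left _ _).trans hu)).trans ?_
    have e : C1 * u ^ (k + 1) = |C| * pk (k + 1) u := by
      rw [hC1]; unfold pk; ring
    rw [e]
    exact mul_le_mul_of_nonneg_right (le_abs_self C) (pk_nonneg _ hu0.le)
  set F : ℝ → ℝ := fun u => rem a ρ L (k + 2) u / u ^ (k + 2) with hF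
  have hvar : ∀ u v, U ≤ u → u ≤ v → |F v - F u| ≤ C1 / u := fun u v hu hv =>
    rem_var P hU hC10 h1 hu hv
  have hcau : CauchySeq F := by
    rw [Metric.cauchySeq_iff']
    intro ε hε
    refine ⟨max U ((C1 + 1) / ε), fun n hn => ?_⟩
    have h2 := hvar (max U ((C1 + 1) / ε)) n (le_max_left _ _) hn
    rw [Real.dist_eq]
    refine lt_of_le_of_lt h2 ?_
    have h3 : (C1 + 1) / ε ≤ max U ((C1 + 1) / ε) := le_max_right _ _
    have h4 : 0 < max U ((C1 + 1) / ε) := lt_of_lt_of_le hU (le_max_left _ _)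
    rw [div_lt_iff₀ h4]
    rw [div_le_iff₀ hε] at h3
    linarith
  obtain ⟨ℓ, hℓ⟩ := cauchySeq_tendsto_of_complete hcau
  have hFl : ∀ u, U ≤ u → |ℓ - F u| ≤ C1 / u := by
    intro u hu
    have h2 : Tendsto (fun v => |F v - F u|) atTop (𝓝 |ℓ - F u|) := (hℓ.sub_const _).abs
    refine le_of_tendsto h2 ?_
    filter_upwards [eventually_ge_atTop u] with v hv
    exact hvar u v hu hv
  have hlim : Tendsto (fun u => rem a ρ L (k + 2) u / pk (k + 2) u) atTop
      (𝓝 (((k + 2).factorial : ℝ) * ℓ)) := by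
    refine (hℓ.const_mul ((k + 2).factorial : ℝ)).congr' ?_
    filter_upwards [eventually_gt_atTop 0] with u hu
    rw [hF]
    unfold pk
    field_simp
  obtain ⟨h2, h3⟩ := abel_pow (rem_meas P.am (k + 2)) (rem_loc P.al (k + 1)) hlim
  have hconv : ∀ w > 0, LInt (EP.ria a (k + 2)) w := fun w hw => (rem_LInt hw).mp (h2 w hw)
  have h4 := (limL_iff D hconv).mp hL
  have h5 := tendsto_nhds_unique h3 h4
  have hℓ0 : ℓ = 0 := by
    have : ((k + 2).factorial : ℝ) ≠ 0 := by positivity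
    rcases mul_eq_zero.mp h5 with h6 | h6
    · exact absurd h6 this
    · exact h6
  refine ⟨hconv, C1, ?_⟩
  filter_upwards [eventually_ge_atTop U] with u hu
  have hu0 : 0 < u := by linarith
  have h6 := hFl u hu
  rw [hℓ0, zero_sub, abs_neg, hF] at h6
  simp only [] at h6
  rw [abs_div, abs_of_pos (pow_pos hu0 _), div_le_div_iff₀ (pow_pos hu0 _) hu0] at h6
  have h7 : |rem a ρ L (k + 2) u| * u ≤ (C1 * u ^ (k + 1)) * u := by
    calc _ ≤ C1 * u ^ (k + 2) := h6
      _ = _ := by ring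
  exact le_of_mul_le_mul_right h7 hu0

/-- the same for the previous mean -/
theorem rate_prev (P : Pair a z) {k : ℕ} {C C' : ℝ}
    (h : ∀ᶠ u in atTop, |EP.ria z (k + 1) u + ρ * pk (k + 2) u| ≤ C * pk (k + 1) u)
    (h' : ∀ᶠ u in atTop, |rem a ρ L (k + 2) u| ≤ C' * u ^ (k + 1)) :
    ∃ C'' : ℝ, ∀ᶠ u in atTop, |rem a ρ L (k + 1) u| ≤ C'' * u ^ k := by
  refine ⟨|C| + ((k : ℝ) + 2) * |C'|, ?_⟩
  filter_upwards [h, h', eventually_gt_atTop 0] with u h1 h2 hu
  have h3 := rem_id (ρ := ρ) (L := L) P (k + 1) u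
  have h4 : |u * rem a ρ L (k + 1) u| ≤ C * pk (k + 1) u + ((k : ℝ) + 2) * (C' * u ^ (k + 1)) := by
    have e : u * rem a ρ L (k + 1) u = (EP.ria z (k + 1) u + ρ * pk (k + 2) u) +
        ((k : ℝ) + 2) * rem a ρ L (k + 2) u := by
      push_cast at h3
      have e3 : ((k : ℝ) + 1 + 1) = (k : ℝ) + 2 := by ring
      rw [e3] at h3
      have e4 : k + 1 + 1 = k + 2 := rfl
      rw [e4] at h3
      linarith
    rw [e]
    refine (abs_add_le _ _).trans (add_le_add h1 ?_)
    rw [abs_mul, abs_of_nonneg (by positivity : (0 : ℝ) ≤ (k : ℝ) + 2)]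
    exact mul_le_mul_of_nonneg_left h2 (by positivity)
  have h5 : pk (k + 1) u ≤ u ^ (k + 1) := by
    unfold pk
    exact div_le_self (by positivity) (by exact_mod_cast Nat.succ_le_of_lt (Nat.factorial_pos _))
  have h6 : C * pk (k + 1) u ≤ |C| * u ^ (k + 1) :=
    (mul_le_mul_of_nonneg_right (le_abs_self C) (pk_nonneg _ hu.le)).trans
      (mul_le_mul_of_nonneg_left h5 (abs_nonneg _))
  have h7 : C' * u ^ (k + 1) ≤ |C'| * u ^ (k + 1) :=
    mul_le_mul_of_nonneg_right (le_abs_self C') (by positivity)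
  rw [abs_mul, abs_of_pos hu] at h4
  have h8 : u * |rem a ρ L (k + 1) u| ≤ u * ((|C| + ((k : ℝ) + 2) * |C'|) * u ^ k) := by
    have h9 : ((k : ℝ) + 2) * (C' * u ^ (k + 1)) ≤ ((k : ℝ) + 2) * (|C'| * u ^ (k + 1)) :=
      mul_le_mul_of_nonneg_left h7 (by positivity)
    calc u * |rem a ρ L (k + 1) u| ≤ _ := h4
      _ ≤ |C| * u ^ (k + 1) + ((k : ℝ) + 2) * (|C'| * u ^ (k + 1)) := add_le_add h6 h9
      _ = _ := by ring
  exact le_of_mul_le_mul_left h8 hu

/-- raising the level of a bound for the von Mangoldt means -/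
theorem raise (P : Pair a z) {k : ℕ} {C : ℝ}
    (h : ∀ᶠ u in atTop, |EP.ria z k u + ρ * pk (k + 1) u| ≤ C * pk k u) :
    ∀ᶠ u in atTop, |EP.ria z (k + 1) u + ρ * pk (k + 2) u| ≤ (C + 1) * pk (k + 1) u := by
  have hi : ∀ U, IntegrableOn (fun u => EP.ria z k u + ρ * pk (k + 1) u) (Ioc 0 U) := fun U =>
    ((P.zl.ria k).integrableOn (ria_meas P.zm k) U).add ((pk_int (k + 1) U).const_mul ρ)
  have e : ∀ u, 0 < u → EP.intU (fun u => EP.ria z k u + ρ * pk (k + 1) u) u =
      EP.ria z (k + 1) u + ρ * pk (k + 2) u := by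
    intro u hu
    have h1 := (P.zl.ria k).integrableOn (ria_meas P.zm k) u
    have h2 := (pk_int (k + 1) u).const_mul ρ
    have h3 : EP.intU (fun u => EP.ria z k u + ρ * pk (k + 1) u) u =
        EP.intU (EP.ria z k) u + ρ * EP.intU (pk (k + 1)) u := by
      unfold EP.intU
      rw [integral_add h1 h2, integral_const_mul]
    rw [h3, pk_intU (k + 1) hu.le]
    rfl
  have h1 := int_gen hi (n := k) (K := C) (K' := C + 1) (by linarith)
    (h.mono fun u hu => (abs_le.mp hu).1)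
  have h2 := int_gen (fun U => (hi U).neg) (n := k) (K := C) (K' := C + 1) (by linarith)
    (h.mono fun u hu => by have := (abs_le.mp hu).2; simp only [Pi.neg_apply]; linarith)
  filter_upwards [h1, h2, eventually_gt_atTop 0] with u h3 h4 hu
  rw [e u hu] at h3
  have e5 : EP.intU (-fun u => EP.ria z k u + ρ * pk (k + 1) u) u =
      -EP.intU (fun u => EP.ria z k u + ρ * pk (k + 1) u) u := intU_neg _ u
  rw [e5, e u hu] at h4
  rw [abs_le]
  constructor <;> linarith

end Pool.Agent.W263.LG
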