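import Pool.Agent.W263.LG.Rate

/-! Riesz means of the logarithm of an Euler product at the centre: the constant term. -/

set_option autoImplicit false

namespace Pool.Agent.W263.LG

open MeasureTheory Filter Topology Set Classical
open Pool.Agent.W263.BSD Pool.Agent.W263.EP Pool.Agent.W263.MN
open Pool.Agent.H341R2 (NormSys)

section Defs

variable (S : NormSys) (bad : Set S.X) (tr : S.X → ℕ → ℝ) (ω : ℝ)

/-- Riesz means of the Dirichlet series of `log L` at the centre `(ω+1)/2`. -/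
noncomputable def MK (k : ℕ) (x : ℝ) : ℝ :=
  ∑ᶠ p ∈ {p : S.X × ℕ | p.1 ∉ bad ∧ (S.N p.1 : ℝ) ^ (p.2 + 1) ≤ x},
    (1 - ((p.2 : ℝ) + 1) * Real.log (S.N p.1) / Real.log x) ^ k *
      (tr p.1 (p.2 + 1) * (S.N p.1 : ℝ) ^ (-(((p.2 : ℝ) + 1) * ((ω + 1) / 2))) / ((p.2 : ℝ) + 1))

end Defs

variable {S : NormSys} {bad : Set S.X} {tr : S.X → ℕ → ℝ} {ω : ℝ} {D : ℝ} {F G : ℂ → ℂ}
  {ρ L : ℝ}

/-- the expected main term of the means -/
noncomputable def mt (ρ L : ℝ) (k : ℕ) (x : ℝ) : ℝ :=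
  L - ρ * (Real.log (Real.log x) + Real.eulerMascheroniConstant - (harmonic k : ℝ))

theorem MK_eq (k : ℕ) (x : ℝ) : MK S bad tr ω k x =
    -∑ᶠ p ∈ {p : (pw S).X | p.1 ∉ bad ∧ (((pw S).N p : ℕ) : ℝ) ≤ x},
      (1 - Real.log ((pw S).N p) / Real.log x) ^ k * ca S (tn S bad tr ω) p := by
  unfold MK
  have e : {p : S.X × ℕ | p.1 ∉ bad ∧ (S.N p.1 : ℝ) ^ (p.2 + 1) ≤ x} =
      {p : S.X × ℕ | p.1 ∉ bad ∧ ((S.N p.1 ^ (p.2 + 1) : ℕ) : ℝ) ≤ x} := by
    ext p
    simp only [mem_ofPred_eq]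
    push_cast
    rfl
  rw [e, ← finsum_neg_distrib]
  refine finsum_congr fun p => ?_
  rw [← finsum_neg_distrib]
  refine finsum_congr fun hp => ?_
  have hp1 : p.1 ∉ bad := hp.1
  have e1 : Real.log ((pw S).N p) = ((p.2 : ℝ) + 1) * Real.log (S.N p.1) := pw_log p
  rw [e1]
  show _ = -(_ * -(tn S bad tr ω p.1 (p.2 + 1) / ((p.2 : ℝ) + 1)))
  unfold tn
  rw [if_neg hp1]
  push_cast
  ring

theorem ria_MK (k : ℕ) {u : ℝ} (hu : 0 < u) :
    EP.ria (ap S (tn S bad tr ω)) k u = -(pk k u * MK S bad tr ω k (Real.exp u)) := by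
  have hfin : {p : (pw S).X | p.1 ∉ bad ∧ (((pw S).N p : ℕ) : ℝ) ≤ Real.exp u}.Finite :=
    (fin_norm (pw S) (Real.exp u)).subset fun p hp => hp.2
  rw [MK_eq]
  unfold ap
  rw [ria_stp, finsum_mem_eq_finite_toFinset_sum _ hfin, mul_neg, neg_neg, Finset.mul_sum,
    Real.log_exp]
  symm
  refine Finset.sum_subset_zero_on_sdiff ?_ ?_ ?_
  · intro p hp
    rw [Set.Finite.mem_toFinset] at hp ⊢
    exact hp.2
  · intro p hp
    rw [Finset.mem_sdiff, Set.Finite.mem_toFinset, Set.Finite.mem_toFinset] at hp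
    have h2 : p.1 ∈ bad := by
      by_contra h
      exact hp.2 ⟨h, hp.1⟩
    unfold ca tn
    rw [if_pos h2]
    simp
  · intro p hp
    unfold pk
    have h3 : 1 - Real.log ((pw S).N p) / u = (u - Real.log ((pw S).N p)) / u := by
      field_simp
    rw [h3, div_pow]
    field_simp

theorem rem_MK (k : ℕ) {u : ℝ} (hu : 0 < u) :
    rem (ap S (tn S bad tr ω)) ρ L k u =
      pk k u * (MK S bad tr ω k (Real.exp u) - mt ρ L k (Real.exp u)) := by
  unfold rem ml mt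
  rw [ria_MK k hu, Real.log_exp]
  ring

/-- transfer of eventual statements from `u` to `x = exp u` -/
theorem ev_exp {p : ℝ → Prop} (h : ∀ᶠ x : ℝ in atTop, p x) : ∀ᶠ u : ℝ in atTop, p (Real.exp u) :=
  Real.tendsto_exp_atTop.eventually h

theorem ev_log {p : ℝ → Prop} (h : ∀ᶠ u : ℝ in atTop, p (Real.exp u)) :
    ∀ᶠ x : ℝ in atTop, p x := by
  filter_upwards [Real.tendsto_log_atTop.eventually h, eventually_gt_atTop 0] with x h1 h2
  rwa [Real.exp_log h2] at h1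

theorem small_iff {k : ℕ} :
    Tendsto (fun u => rem (ap S (tn S bad tr ω)) ρ L k u / pk k u) atTop (𝓝 0) ↔
      Tendsto (fun x : ℝ => MK S bad tr ω k x - mt ρ L k x) atTop (𝓝 0) := by
  have key : ∀ᶠ u : ℝ in atTop, rem (ap S (tn S bad tr ω)) ρ L k u / pk k u =
      MK S bad tr ω k (Real.exp u) - mt ρ L k (Real.exp u) := by
    filter_upwards [eventually_gt_atTop 0] with u hu
    have hp : pk k u ≠ 0 := by
      have : 0 < pk k u := by unfold pk; positivity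
      exact this.ne'
    rw [rem_MK k hu, mul_div_cancel_left₀ _ hp]
  rw [tendsto_congr' key]
  constructor
  · intro h
    refine (h.comp Real.tendsto_log_atTop).congr' ?_
    filter_upwards [eventually_gt_atTop 0] with x hx
    simp only [Function.comp, Real.exp_log hx]
  · intro h
    exact h.comp Real.tendsto_exp_atTop

theorem lower_rem {k : ℕ} {K : ℝ} (h : ∀ᶠ x : ℝ in atTop, -K ≤ MK S bad tr ω k x - mt ρ L k x) :
    ∀ᶠ u : ℝ in atTop, -(K * pk k u) ≤ rem (ap S (tn S bad tr ω)) ρ L k u := by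
  filter_upwards [ev_exp h, eventually_gt_atTop 0] with u h1 hu
  rw [rem_MK k hu]
  have := mul_le_mul_of_nonneg_left h1 (pk_nonneg k hu.le)
  linarith

/-- `log |F(s)| - ρ log (s - c) → L` as `s → c⁺` -/
def CLim (c : ℝ) (F : ℂ → ℂ) (ρ L : ℝ) : Prop :=
  Tendsto (fun s : ℝ => Real.log ‖F s‖ - ρ * Real.log (s - c)) (𝓝[>] c) (𝓝 L)

theorem CLim.shift (h : CLim ((ω + 1) / 2) F ρ L) :
    LimL (fun w => F (((ω : ℂ) + 1) / 2 + w)) ρ L := by
  have h1 := h.comp (shift_nhds ((ω + 1) / 2))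
  refine h1.congr fun w => ?_
  simp only [Function.comp, centre_cast, add_sub_cancel_left]

theorem CLim.unshift (h : LimL (fun w => F (((ω : ℂ) + 1) / 2 + w)) ρ L) :
    CLim ((ω + 1) / 2) F ρ L := by
  have h1 := h.comp (shift_nhds' ((ω + 1) / 2))
  refine h1.congr fun s => ?_
  simp only [Function.comp]
  have e : ((ω : ℂ) + 1) / 2 + ((s - (ω + 1) / 2 : ℝ) : ℂ) = s := by push_cast; ring
  rw [e]

/-- the limit in terms of the leading value -/
theorem clim_of_lead {c Λ : ℝ} (hΛ : 0 < Λ)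
    (h : Tendsto (fun s : ℝ => ‖F s‖ / (s - c) ^ ρ) (𝓝[>] c) (𝓝 Λ)) :
    CLim c F ρ (Real.log Λ) := by
  refine (h.log hΛ.ne').congr' ?_
  filter_upwards [self_mem_nhdsWithin, h.eventually (lt_mem_nhds hΛ)] with s hs h1
  have hs0 : 0 < s - c := sub_pos.mpr hs
  have hp : 0 < (s - c) ^ ρ := Real.rpow_pos_of_pos hs0 ρ
  have hF : ‖F s‖ ≠ 0 := by
    intro h0
    rw [h0, zero_div] at h1
    exact lt_irrefl _ h1
  rw [Real.log_div hF hp.ne', Real.log_rpow hs0]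

theorem lead_of_clim {c Λ : ℝ} (hΛ : 0 < Λ) (hne : ∀ᶠ s : ℝ in 𝓝[>] c, F s ≠ 0)
    (h : CLim c F ρ (Real.log Λ)) :
    Tendsto (fun s : ℝ => ‖F s‖ / (s - c) ^ ρ) (𝓝[>] c) (𝓝 Λ) := by
  have h1 := h.rexp
  rw [Real.exp_log hΛ] at h1
  refine h1.congr' ?_
  filter_upwards [self_mem_nhdsWithin, hne] with s hs h2
  have hs0 : 0 < s - c := sub_pos.mpr hs
  rw [Real.exp_sub, Real.exp_log (norm_pos_iff.mpr h2), Real.rpow_def_of_pos hs0, mul_comm ρ]

/-- the leading value at a point where `F` is meromorphic -/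
theorem mero_lead {c : ℝ} {n : ℤ} (hm : MeromorphicAt F c) (hn : meromorphicOrderAt F c = n) :
    ∃ Λ : ℝ, 0 < Λ ∧ Tendsto (fun s : ℝ => ‖F s‖ / (s - c) ^ (n : ℝ)) (𝓝[>] c) (𝓝 Λ) := by
  obtain ⟨g, hg, hg0, he⟩ := (meromorphicOrderAt_eq_int_iff hm).mp hn
  refine ⟨‖g c‖, norm_pos_iff.mpr hg0, ?_⟩
  have h1 : ∀ᶠ s : ℝ in 𝓝[>] c, F s = ((s : ℂ) - c) ^ n • g s := (cast_tendsto c).eventually he
  have h2 : ContinuousAt (fun s : ℝ => g s) c :=
    ContinuousAt.comp (f := fun s : ℝ => (s : ℂ)) hg.continuousAt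
      Complex.continuous_ofReal.continuousAt
  refine (tendsto_nhdsWithin_of_tendsto_nhds h2.norm.tendsto).congr' ?_
  filter_upwards [h1, self_mem_nhdsWithin] with s h6 h7
  have hs : 0 < s - c := sub_pos.mpr h7
  rw [h6, smul_eq_mul, norm_mul, norm_zpow, ← Complex.ofReal_sub, Complex.norm_real,
    Real.norm_of_nonneg hs.le, Real.rpow_intCast, mul_div_cancel_left₀ _ (zpow_pos hs n).ne']

/-- **Theorem (leading value, no continuation assumed).** -/
theorem lead_means (E : TData S (tn S bad tr ω) D) (ρ L : ℝ) :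
    List.TFAE [
      ∃ k : ℕ, Tendsto (fun x : ℝ => MK S bad tr ω k x - mt ρ L k x) atTop (𝓝 0),
      (∃ F : ℂ → ℂ, IsCont S bad tr ω F ∧ CLim ((ω + 1) / 2) F ρ L) ∧
        ∃ (k : ℕ) (K : ℝ), ∀ᶠ x : ℝ in atTop, -K ≤ MK S bad tr ω k x - mt ρ L k x,
      (∃ F : ℂ → ℂ, IsCont S bad tr ω F ∧ CLim ((ω + 1) / 2) F ρ L ∧
        ∀ s : ℝ, (ω + 1) / 2 < s → F s ≠ 0) ∧
        ∃ (k : ℕ) (K : ℝ), ∀ᶠ x : ℝ in atTop, MK S bad tr ω k x - mt ρ L k x ≤ K,
      (∃ F : ℂ → ℂ, IsFull S bad tr ω F ∧ CLim ((ω + 1) / 2) F ρ L) ∧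
        ∃ (k : ℕ) (K : ℝ), ∀ᶠ x : ℝ in atTop, |MK S bad tr ω k x - mt ρ L k x| ≤ K] := by
  have P := pair E
  tfae_have 1 → 4 := by
    rintro ⟨k, h⟩
    obtain ⟨hconv, h2⟩ := abel_lead P.am P.al (small_iff.mpr h)
    have hF := FCz_isFull E (k + 1) hconv
    refine ⟨⟨FCz S bad tr ω (k + 1), hF, ?_⟩, k, 1, ?_⟩
    · exact CLim.unshift ((limL_iff (dataP E hF.isCont) hconv).mpr h2)
    · have h3 := (Metric.tendsto_nhds.mp h) 1 one_pos
      filter_upwards [h3] with x h4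
      rw [Real.dist_eq, sub_zero] at h4
      exact h4.le
  tfae_have 4 → 2 := by
    rintro ⟨⟨F, hF, hO⟩, k, K, hK⟩
    exact ⟨⟨F, hF.isCont, hO⟩, k, K, hK.mono fun x hx => (abs_le.mp hx).1⟩
  tfae_have 4 → 3 := by
    rintro ⟨⟨F, hF, hO⟩, k, K, hK⟩
    exact ⟨⟨F, hF.isCont, hO, fun s hs => hF.2.1 s (by simpa using hs)⟩, k, K,
      hK.mono fun x hx => (abs_le.mp hx).2⟩
  tfae_have 2 → 1 := by
    rintro ⟨⟨F, hF, hO⟩, k, K, hK⟩
    exact ⟨k + 2, small_iff.mp (taub_lead (dataP E hF) P.al hO.shift (lower_rem hK)).2⟩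
  tfae_have 3 → 1 := by
    rintro ⟨⟨F, hF, hO, hne⟩, k, K, hK⟩
    have hD := (dataP E hF).neg (Phi_ne hne)
    have e0 : (fun z : ℂ => -(fun _ : ℂ => (0 : ℂ)) z) = fun _ => 0 := by
      funext z; simp
    rw [e0] at hD
    have hO' : LimL (fun z => (F (((ω : ℂ) + 1) / 2 + z))⁻¹) (-ρ) (-L) := by
      refine hO.shift.neg.congr fun w => ?_
      rw [norm_inv, Real.log_inv]
      ring
    have hrn : ∀ (k : ℕ) (u : ℝ), rem (fun u => -ap S (tn S bad tr ω) u) (-ρ) (-L) k u =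
        -rem (ap S (tn S bad tr ω)) ρ L k u := by
      intro k u
      unfold rem
      have e1 : ∀ (k : ℕ) (u : ℝ), EP.ria (fun u => -ap S (tn S bad tr ω) u) k u =
          -EP.ria (ap S (tn S bad tr ω)) k u := by
        intro k
        induction k with
        | zero => intro u; rfl
        | succ k ih =>
          intro u
          have e2 : EP.ria (fun u => -ap S (tn S bad tr ω) u) k =
              fun u => -EP.ria (ap S (tn S bad tr ω)) k u := funext ih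
          show EP.intU (EP.ria (fun u => -ap S (tn S bad tr ω) u) k) u = _
          rw [e2, intU_neg]
          rfl
      rw [e1]
      ring
    have hl' : Loc (fun u => -ap S (tn S bad tr ω) u) := fun U => by
      obtain ⟨B, hB⟩ := P.al U
      exact ⟨B, fun u h1 h2 => by rw [abs_neg]; exact hB u h1 h2⟩
    have h1 := (taub_lead hD hl' hO' (k := k) (K := K) (by
      filter_upwards [ev_exp hK, eventually_gt_atTop 0] with u h2 hu
      rw [hrn, rem_MK k hu]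
      have := mul_le_mul_of_nonneg_left h2 (pk_nonneg k hu.le)
      linarith)).2
    refine ⟨k + 2, small_iff.mp ?_⟩
    have h2 := h1.neg
    rw [neg_zero] at h2
    refine h2.congr fun u => ?_
    rw [hrn]
    ring
  tfae_finish

end Pool.Agent.W263.LG
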