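import Pool.Agent.W263.LG.Freq

/-! The value at the centre. -/

set_option autoImplicit false

namespace Pool.Agent.W263.LG

open MeasureTheory Filter Topology Set Classical
open Pool.Agent.W263.BSD Pool.Agent.W263.EP Pool.Agent.W263.MN
open Pool.Agent.H341R2 (NormSys)

variable {S : NormSys} {Bs : Finset S.X} {tr : S.X → ℕ → ℝ} {ω : ℝ} {D : ℝ} {F G : ℂ → ℂ}
  {ρ L : ℝ} {n : ℤ}

theorem bdd_of_tendsto {m : ℝ → ℝ} {L : ℝ} (h : Tendsto m atTop (𝓝 L)) :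
    ∃ C : ℝ, ∀ᶠ x : ℝ in atTop, |m x| ≤ C := by
  refine ⟨|L| + 1, ?_⟩
  filter_upwards [(Metric.tendsto_nhds.mp h) 1 one_pos] with x hx
  rw [Real.dist_eq] at hx
  have h1 := abs_sub_abs_le_abs_sub (m x) L
  linarith

theorem tendsto_of_rate {m : ℝ → ℝ} {L C : ℝ}
    (h : ∀ᶠ x : ℝ in atTop, |m x - L| ≤ C / Real.log x) : Tendsto m atTop (𝓝 L) := by
  have h1 : Tendsto (fun x => m x - L) atTop (𝓝 0) := squeeze_zero_norm' h (inv_log_tendsto C)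
  have h2 := h1.add_const L
  rw [zero_add] at h2
  exact h2.congr fun x => by ring

theorem loglog_ge {K : ℝ} : ∀ᶠ x : ℝ in atTop, K ≤ |K| * Real.log (Real.log x) := by
  filter_upwards [loglog_atTop.eventually (eventually_ge_atTop 1)] with x h
  exact (le_abs_self K).trans (le_mul_of_one_le_right (abs_nonneg _) h)

/-- **Theorem (the value at the centre).** -/
theorem value_means (E : TData S (tn S (Bs : Set S.X) tr ω) D)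
    (hF : IsCont S (Bs : Set S.X) tr ω F) {r : ℕ}
    (hA : AnalyticAt ℂ F (((ω + 1) / 2 : ℝ) : ℂ))
    (hr : analyticOrderAt F (((ω + 1) / 2 : ℝ) : ℂ) = r) :
    List.TFAE [
      ∃ (k : ℕ) (C : ℝ), ∀ᶠ x : ℝ in atTop, -C ≤ MK S (Bs : Set S.X) tr ω k x,
      ∃ (k : ℕ) (C : ℝ), ∀ᶠ x : ℝ in atTop, |MK S (Bs : Set S.X) tr ω k x| ≤ C,
      ∃ (k : ℕ) (L : ℝ), Tendsto (fun x : ℝ => MK S (Bs : Set S.X) tr ω k x) atTop (𝓝 L),
      F (((ω + 1) / 2 : ℝ) : ℂ) ≠ 0 ∧ ∃ k : ℕ,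
        Tendsto (fun x : ℝ => MK S (Bs : Set S.X) tr ω k x) atTop
          (𝓝 (Real.log ‖F (((ω + 1) / 2 : ℝ) : ℂ)‖)),
      F (((ω + 1) / 2 : ℝ) : ℂ) ≠ 0 ∧ ∃ (k : ℕ) (C : ℝ), ∀ᶠ x : ℝ in atTop,
        |MK S (Bs : Set S.X) tr ω k x - Real.log ‖F (((ω + 1) / 2 : ℝ) : ℂ)‖| ≤ C / Real.log x,
      F (((ω + 1) / 2 : ℝ) : ℂ) ≠ 0 ∧ (∀ s : ℝ, (ω + 1) / 2 < s → F s ≠ 0) ∧
        ∃ (k : ℕ) (C : ℝ), ∀ᶠ x : ℝ in atTop, MK S (Bs : Set S.X) tr ω k x ≤ C,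
      F (((ω + 1) / 2 : ℝ) : ℂ) ≠ 0 ∧
        ∃ G : ℂ → ℂ, IsFull S (Bs : Set S.X) tr ω G ∧ LDB ((ω + 1) / 2) G] := by
  have hm : MeromorphicAt F (((ω + 1) / 2 : ℝ) : ℂ) := hA.meromorphicAt
  have hn : meromorphicOrderAt F (((ω + 1) / 2 : ℝ) : ℂ) = ((r : ℤ) : WithTop ℤ) := by
    rw [hA.meromorphicOrderAt_eq, hr]
    rfl
  have hW : WOrd ((ω + 1) / 2) F ((r : ℤ) : ℝ) := wOrd_of_mero hm hn
  -- a lower bound gives everything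
  have hne0 : ∀ {k : ℕ} {C : ℝ}, (∀ᶠ x : ℝ in atTop, -C ≤ MK S (Bs : Set S.X) tr ω k x) →
      F (((ω + 1) / 2 : ℝ) : ℂ) ≠ 0 := by
    intro k C h
    have h1 := order_le_of_lower E hF hW h
    have h2 : r = 0 := by
      have : (r : ℝ) ≤ 0 := by exact_mod_cast h1
      exact_mod_cast le_antisymm this (Nat.cast_nonneg r)
    rw [h2] at hr
    exact (hA.analyticOrderAt_eq_zero).mp (by rw [hr]; rfl)
  have hn0 : F (((ω + 1) / 2 : ℝ) : ℂ) ≠ 0 →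
      meromorphicOrderAt F (((ω + 1) / 2 : ℝ) : ℂ) = ((0 : ℤ) : WithTop ℤ) := by
    intro h
    rw [hA.meromorphicOrderAt_eq, (hA.analyticOrderAt_eq_zero).mpr h]
    rfl
  have hM := fun h0 : F (((ω + 1) / 2 : ℝ) : ℂ) ≠ 0 =>
    mero_means E hF hm (hn0 h0) (clim_of_ne hA.continuousAt h0)
  simp only [mt_zero] at hM
  tfae_have 1 → 7 := by
    rintro ⟨k, C, h⟩
    have h0 := hne0 h
    have key := (hM h0).out 0 4
    refine ⟨h0, key.mp ⟨k, |C|, ?_⟩⟩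
    filter_upwards [h, loglog_ge (K := C)] with x h1 h2
    linarith
  tfae_have 7 → 5 := fun ⟨h0, h⟩ => ⟨h0, ((hM h0).out 4 3).mp h⟩
  tfae_have 5 → 4 := fun ⟨h0, k, C, h⟩ => ⟨h0, k, tendsto_of_rate h⟩
  tfae_have 4 → 3 := fun ⟨_, k, h⟩ => ⟨k, _, h⟩
  tfae_have 3 → 2 := by
    rintro ⟨k, L, h⟩
    obtain ⟨C, hC⟩ := bdd_of_tendsto h
    exact ⟨k, C, hC⟩
  tfae_have 2 → 1 := fun ⟨k, C, h⟩ => ⟨k, C, h.mono fun x hx => (abs_le.mp hx).1⟩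
  tfae_have 7 → 6 := by
    rintro ⟨h0, h⟩
    obtain ⟨hne, _⟩ := ((hM h0).out 4 1).mp h
    obtain ⟨k, C, h1⟩ := ((hM h0).out 4 3).mp h
    obtain ⟨C', h2⟩ := bdd_of_tendsto (tendsto_of_rate h1)
    exact ⟨h0, hne, k, C', h2.mono fun x hx => (abs_le.mp hx).2⟩
  tfae_have 6 → 7 := by
    rintro ⟨h0, hne, k, C, h⟩
    have key := (hM h0).out 1 4
    refine ⟨h0, key.mp ⟨hne, k, |C|, ?_⟩⟩
    filter_upwards [h, loglog_ge (K := C)] with x h1 h2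
    linarith
  tfae_finish

/-- **Theorem (the value at the centre, polynomial growth).** -/
theorem value_growth (E : TData S (tn S (Bs : Set S.X) tr ω) D)
    (hd : ∀ s : ℂ, (ω + 1) / 2 < s.re → DifferentiableAt ℂ F s)
    (he : ∀ s : ℂ, (ω + 2) / 2 < s.re → F s = LF S (Bs : Set S.X) tr s) {r : ℕ}
    (hA : AnalyticAt ℂ F (((ω + 1) / 2 : ℝ) : ℂ))
    (hr : analyticOrderAt F (((ω + 1) / 2 : ℝ) : ℂ) = r)
    (hg : ∃ (C : ℝ) (A : ℕ), ∀ s : ℂ, (ω + 1) / 2 < s.re → ‖F s‖ ≤ C * (1 + ‖s‖) ^ A) :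
    List.TFAE [
      F (((ω + 1) / 2 : ℝ) : ℂ) ≠ 0 ∧ ∀ s : ℂ, (ω + 1) / 2 < s.re → F s ≠ 0,
      ∃ C : ℝ, ∀ᶠ x : ℝ in atTop, -C ≤ MK S (Bs : Set S.X) tr ω 1 x,
      ∃ C : ℝ, ∀ᶠ x : ℝ in atTop, |MK S (Bs : Set S.X) tr ω 1 x| ≤ C,
      ∃ L : ℝ, Tendsto (fun x : ℝ => MK S (Bs : Set S.X) tr ω 2 x) atTop (𝓝 L),
      F (((ω + 1) / 2 : ℝ) : ℂ) ≠ 0 ∧ ∃ C : ℝ, ∀ᶠ x : ℝ in atTop,
        |MK S (Bs : Set S.X) tr ω 2 x - Real.log ‖F (((ω + 1) / 2 : ℝ) : ℂ)‖| ≤ C / Real.log x] := by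
  have hc : IsCont S (Bs : Set S.X) tr ω F := by
    refine ⟨fun s hs => ?_, fun s hs => he s (by simpa using hs)⟩
    refine Complex.analyticAt_iff_eventually_differentiableAt.mpr ?_
    filter_upwards [(isOpen_half ((ω + 1) / 2)).mem_nhds
      (show (ω + 1) / 2 < (s : ℂ).re by simpa using hs)] with z hz using hd z hz
  have hm : MeromorphicAt F (((ω + 1) / 2 : ℝ) : ℂ) := hA.meromorphicAt
  have hn : meromorphicOrderAt F (((ω + 1) / 2 : ℝ) : ℂ) = ((r : ℤ) : WithTop ℤ) := by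
    rw [hA.meromorphicOrderAt_eq, hr]
    rfl
  have hW : WOrd ((ω + 1) / 2) F ((r : ℤ) : ℝ) := wOrd_of_mero hm hn
  have hne0 : ∀ {k : ℕ} {C : ℝ}, (∀ᶠ x : ℝ in atTop, -C ≤ MK S (Bs : Set S.X) tr ω k x) →
      F (((ω + 1) / 2 : ℝ) : ℂ) ≠ 0 := by
    intro k C h
    have h1 := order_le_of_lower E hc hW h
    have h2 : r = 0 := by
      have : (r : ℝ) ≤ 0 := by exact_mod_cast h1
      exact_mod_cast le_antisymm this (Nat.cast_nonneg r)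
    rw [h2] at hr
    exact (hA.analyticOrderAt_eq_zero).mp (by rw [hr]; rfl)
  have hn0 : F (((ω + 1) / 2 : ℝ) : ℂ) ≠ 0 →
      meromorphicOrderAt F (((ω + 1) / 2 : ℝ) : ℂ) = ((0 : ℤ) : WithTop ℤ) := by
    intro h
    rw [hA.meromorphicOrderAt_eq, (hA.analyticOrderAt_eq_zero).mpr h]
    rfl
  have hM := fun h0 : F (((ω + 1) / 2 : ℝ) : ℂ) ≠ 0 =>
    growth_means E hd he hm (hn0 h0) (clim_of_ne hA.continuousAt h0) hg
  simp only [mt_zero] at hM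
  have hweak : ∀ {k : ℕ} {C : ℝ}, (∀ᶠ x : ℝ in atTop, -C ≤ MK S (Bs : Set S.X) tr ω k x) →
      F (((ω + 1) / 2 : ℝ) : ℂ) ≠ 0 ∧ ∀ s : ℂ, (ω + 1) / 2 < s.re → F s ≠ 0 := by
    intro k C h
    have h0 := hne0 h
    have key := (hM h0).out 4 0
    refine ⟨h0, key.mp ⟨k, |C|, ?_⟩⟩
    filter_upwards [h, loglog_ge (K := C)] with x h1 h2
    linarith
  tfae_have 1 → 3 := by
    rintro ⟨h0, h⟩
    obtain ⟨C, h1⟩ := ((hM h0).out 0 2).mp h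
    refine ⟨C + |Real.log ‖F (((ω + 1) / 2 : ℝ) : ℂ)‖|, h1.mono fun x hx => ?_⟩
    have h2 := abs_sub_abs_le_abs_sub (MK S (Bs : Set S.X) tr ω 1 x)
      (Real.log ‖F (((ω + 1) / 2 : ℝ) : ℂ)‖)
    linarith
  tfae_have 3 → 2 := fun ⟨C, h⟩ => ⟨C, h.mono fun x hx => (abs_le.mp hx).1⟩
  tfae_have 2 → 1 := fun ⟨C, h⟩ => hweak h
  tfae_have 1 → 5 := fun ⟨h0, h⟩ => ⟨h0, ((hM h0).out 0 3).mp h⟩
  tfae_have 5 → 4 := fun ⟨h0, C, h⟩ => ⟨_, tendsto_of_rate h⟩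
  tfae_have 4 → 1 := by
    rintro ⟨L, h⟩
    obtain ⟨C, hC⟩ := bdd_of_tendsto h
    exact hweak (k := 2) (C := C) (hC.mono fun x hx => (abs_le.mp hx).1)
  tfae_finish

/-- bounds for the two kinds of means -/
theorem RK_le_iff (E : TData S (tn S (Bs : Set S.X) tr ω) D) {k : ℕ} :
    (∃ C : ℝ, ∀ᶠ x : ℝ in atTop, RK S (Bs : Set S.X) tr ω k x ≤ C) ↔
      ∃ C : ℝ, ∀ᶠ x : ℝ in atTop, -C ≤ MK S (Bs : Set S.X) tr ω k x := by
  obtain ⟨K, hK⟩ := RK_MK E k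
  constructor
  · rintro ⟨C, h⟩
    refine ⟨K + C, ?_⟩
    filter_upwards [hK, h] with x h1 h2
    have := (abs_le.mp h1).1
    linarith
  · rintro ⟨C, h⟩
    refine ⟨K + C, ?_⟩
    filter_upwards [hK, h] with x h1 h2
    have := (abs_le.mp h1).2
    linarith

theorem RK_abs_iff (E : TData S (tn S (Bs : Set S.X) tr ω) D) {k : ℕ} :
    (∃ C : ℝ, ∀ᶠ x : ℝ in atTop, |RK S (Bs : Set S.X) tr ω k x| ≤ C) ↔
      ∃ C : ℝ, ∀ᶠ x : ℝ in atTop, |MK S (Bs : Set S.X) tr ω k x| ≤ C := by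
  have := RK_bdd_iff E (k := k) (g := fun _ => 0)
  simpa using this

/-- **Theorem (zero at the centre).** On the Riemann hypothesis the first mean tends to infinity. -/
theorem RK_atTop (E : TData S (tn S (Bs : Set S.X) tr ω) D)
    (hd : ∀ s : ℂ, (ω + 1) / 2 < s.re → DifferentiableAt ℂ F s)
    (he : ∀ s : ℂ, (ω + 2) / 2 < s.re → F s = LF S (Bs : Set S.X) tr s) {r : ℕ}
    (hA : AnalyticAt ℂ F (((ω + 1) / 2 : ℝ) : ℂ))
    (hr : analyticOrderAt F (((ω + 1) / 2 : ℝ) : ℂ) = r)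
    (hg : ∃ (C : ℝ) (A : ℕ), ∀ s : ℂ, (ω + 1) / 2 < s.re → ‖F s‖ ≤ C * (1 + ‖s‖) ^ A)
    (h0 : F (((ω + 1) / 2 : ℝ) : ℂ) = 0) (hRH : ∀ s : ℂ, (ω + 1) / 2 < s.re → F s ≠ 0) :
    Tendsto (fun x : ℝ => RK S (Bs : Set S.X) tr ω 1 x) atTop atTop := by
  have hm : MeromorphicAt F (((ω + 1) / 2 : ℝ) : ℂ) := hA.meromorphicAt
  have hn : meromorphicOrderAt F (((ω + 1) / 2 : ℝ) : ℂ) = ((r : ℤ) : WithTop ℤ) := by
    rw [hA.meromorphicOrderAt_eq, hr]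
    rfl
  have hr0 : r ≠ 0 := by
    rintro rfl
    exact (hA.analyticOrderAt_eq_zero).mp (by rw [hr]; rfl) h0
  have hr1 : (0 : ℝ) < r := by positivity
  obtain ⟨Λ, hΛ, h1⟩ := mero_lead hm hn
  obtain ⟨C, h2⟩ := ((growth_means E hd he hm hn (clim_of_lead hΛ h1) hg).out 0 2).mp hRH
  obtain ⟨K, hK⟩ := RK_MK E 1
  refine tendsto_atTop.mpr fun B => ?_
  have h3 := (loglog_atTop.const_mul_atTop hr1).eventually (eventually_ge_atTop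
    (B + K + C + Real.log Λ - (r : ℝ) * (Real.eulerMascheroniConstant - (harmonic 1 : ℝ))))
  filter_upwards [h2, hK, h3] with x h4 h5 h6
  have h7 := (abs_le.mp h4).2
  have h8 := (abs_le.mp h5).1
  unfold mt at h7
  push_cast at h7 h6
  have e : (r : ℝ) * (Real.log (Real.log x) + Real.eulerMascheroniConstant - (harmonic 1 : ℝ)) =
      r * Real.log (Real.log x) + r * (Real.eulerMascheroniConstant - (harmonic 1 : ℝ)) := by ring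
  rw [e] at h7
  linarith

end Pool.Agent.W263.LG
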